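import Pool.Agent.MP_3ce0a0_al.Q2T14.Basic

/-! Row ACTS: the two commuting actions on the compatible families of ports. -/

set_option autoImplicit false

namespace Pool.Agent.MP_3ce0a0_al.Q2T14

open Pool.Agent.MP_3ce0a0_al.H79 Pool.Agent.MP_3ce0a0_al.Q2T15 Filter

namespace RActs

variable {α F : Type} [Finite α] [Group F] {ρ : Out (FreeGroup α) →* Out F}
  {P : Finset α → (FreeGroup α → F) → Prop}

theorem ex_ok (h8 : 8 ≤ Nat.card α) (y : α) : ∃ I : Finset α, Ok I ∧ y ∈ I := by
  obtain ⟨I, h1, h2, -⟩ := exists_set (A := {y}) (Z := (∅ : Finset α)) (k := 3)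
    (Finset.disjoint_empty_right _) (by simp) (by rw [Finset.card_empty]; omega)
  exact ⟨I, ⟨h1.ge, by omega⟩, h2 (Finset.mem_singleton_self y)⟩

theorem ex_ok' (h8 : 8 ≤ Nat.card α) : ∃ I : Finset α, Ok I := by
  obtain ⟨x, -⟩ := exists_notMem (α := α) (S := ∅) (by rw [Finset.card_empty]; omega)
  obtain ⟨I, h, -⟩ := ex_ok h8 x
  exact ⟨I, h⟩

theorem ex_l (h8 : 8 ≤ Nat.card α) (h : PortSys ρ P) (T : Atlas P) :
    ∃ l : F →* Equiv.Perm T.Φ,
      ∀ u π I, Ok I → T.rep (l u π) =ᶠ[deep I] fun w => u * T.rep π w * u⁻¹ := by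
  obtain ⟨I₀, h₀⟩ := ex_ok' h8
  have h1 : ∀ (u : F) (π : T.Φ), ∃ π', ∀ I, Ok I →
      T.rep π' =ᶠ[deep I] fun w => u * T.rep π w * u⁻¹ := by
    intro u π
    obtain ⟨π', h2⟩ := T.glue h ∅ (g := fun w => u * T.rep π w * u⁻¹) (fun I hI _ => by
      obtain ⟨x, hx⟩ := exists_notMem (S := I) (by have := hI.2; omega)
      exact h.aut I _ x 1 (MulAut.conj u) hI (T.mem π I hI) hx (one_mem _) (fun _ => Iff.rfl)
        (lifts_one u)) h₀ (Finset.empty_subset _)
    exact ⟨π', fun I hI => h2 I hI (Finset.empty_subset _)⟩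
  choose f hf using h1
  have hone : ∀ π, f 1 π = π := fun π => T.inj _ _ I₀ h₀ (by
    filter_upwards [hf 1 π I₀ h₀] with w hw
    rw [hw, one_mul, inv_one, mul_one])
  have hmul : ∀ u v π, f (u * v) π = f u (f v π) := fun u v π => T.inj _ _ I₀ h₀ (by
    filter_upwards [hf (u * v) π I₀ h₀, hf u (f v π) I₀ h₀, hf v π I₀ h₀] with w h1 h2 h3
    rw [h1, h2, h3]
    group)
  let m : F →* Function.End T.Φ :=
    { toFun := f
      map_one' := funext hone
      map_mul' := fun u v => funext (hmul u v) }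
  exact ⟨m.toHomPerm, fun u π I hI => hf u π I hI⟩

theorem ex_t (hi : StmtInn) (h8 : 8 ≤ Nat.card α) (h : PortSys ρ P) (T : Atlas P) (y : α)
    (t : FreeGroup α) (ht : ∀ I : Finset α, y ∈ I → t ∈ std (I : Set α)) :
    ∃ f : T.Φ → T.Φ, ∀ π I, Ok I → y ∈ I →
      T.rep (f π) =ᶠ[deep I] fun w => T.rep π (t⁻¹ * w * t) := by
  obtain ⟨I₀, h₀, hy⟩ := ex_ok h8 y
  have h1 : ∀ π : T.Φ, ∃ π', ∀ I, Ok I → y ∈ I →
      T.rep π' =ᶠ[deep I] fun w => T.rep π (t⁻¹ * w * t) := by
    intro π
    obtain ⟨π', h2⟩ := T.glue h {y} (g := fun w => T.rep π (t⁻¹ * w * t)) (fun I hI hA =>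
      hi α F ρ P h8 h I _ t hI (T.mem π I hI) (ht I (hA (Finset.mem_singleton_self y)))) h₀
      (Finset.singleton_subset_iff.2 hy)
    exact ⟨π', fun I hI hy' => h2 I hI (Finset.singleton_subset_iff.2 hy')⟩
  choose f hf using h1
  exact ⟨f, hf⟩

theorem ex_e (hi : StmtInn) (h8 : 8 ≤ Nat.card α) (h : PortSys ρ P) (T : Atlas P) (y : α) :
    ∃ e : Equiv.Perm T.Φ, ∀ π I, Ok I → y ∈ I →
      T.rep (e π) =ᶠ[deep I] fun w => T.rep π ((FreeGroup.of y)⁻¹ * w * FreeGroup.of y) := by
  have hy : ∀ I : Finset α, y ∈ I → FreeGroup.of y ∈ std (I : Set α) := fun I hI =>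
    of_mem_std (Finset.mem_coe.2 hI)
  obtain ⟨f, hf⟩ := ex_t hi h8 h T y _ hy
  obtain ⟨g, hg⟩ := ex_t hi h8 h T y (FreeGroup.of y)⁻¹ fun I hI => inv_mem (hy I hI)
  obtain ⟨I, hI, hyI⟩ := ex_ok h8 y
  refine ⟨⟨f, g, fun π => T.inj _ _ I hI ?_, fun π => T.inj _ _ I hI ?_⟩, hf⟩
  · filter_upwards [hg (f π) I hI hyI,
      (tendsto_conj (inv_mem (hy I hyI))).eventually (hf π I hI hyI)] with w h1 h2
    rw [h1, h2]
    exact congrArg _ (by group)
  · filter_upwards [hf (g π) I hI hyI,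
      (tendsto_conj (hy I hyI)).eventually (hg π I hI hyI)] with w h1 h2
    rw [h1, h2]
    exact congrArg _ (by group)

end RActs

open RActs in
/-- Row ACTS. -/
theorem rowActs (hi : StmtInn) : StmtActs := by
  intro α F _ _ ρ P h8 h T
  obtain ⟨l, hl⟩ := ex_l h8 h T
  choose e he using ex_e hi h8 h T
  have hr : ∀ y, FreeGroup.lift e (FreeGroup.of y) = e y := fun y => FreeGroup.lift_apply_of
  refine ⟨{ T with l := l, r := FreeGroup.lift e, l_rep := hl, r_rep := ?_, comm := ?_ }⟩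
  · intro t π I hI ht
    have key : t ∈ std (I : Set α) ∧ ∀ π, T.rep (FreeGroup.lift e t π) =ᶠ[deep I]
        fun w => T.rep π (t⁻¹ * w * t) := by
      refine ⟨ht, ?_⟩
      induction ht using Subgroup.closure_induction with
      | mem x hx =>
        obtain ⟨y, hy, rfl⟩ := hx
        intro π
        rw [hr]
        exact he y π I hI hy
      | one =>
        intro π
        refine Eventually.of_forall fun w => ?_
        simp
      | mul a b ha _ iha ihb =>
        intro π
        rw [map_mul, Equiv.Perm.mul_apply]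
        filter_upwards [iha (FreeGroup.lift e b π), (tendsto_conj ha).eventually (ihb π)]
          with w h1 h2
        rw [h1, h2]
        exact congrArg _ (by group)
      | inv a ha iha =>
        intro π
        have h1 := iha (FreeGroup.lift e a⁻¹ π)
        rw [← Equiv.Perm.mul_apply, ← map_mul, mul_inv_cancel, map_one, Equiv.Perm.one_apply] at h1
        filter_upwards [(tendsto_conj (inv_mem ha : a⁻¹ ∈ std (I : Set α))).eventually h1]
          with w h2
        rw [h2]
        exact congrArg _ (by group)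
    exact key.2 π
  · intro u t π
    have h1 : ∀ y, Commute (l u) (e y) := fun y => by
      obtain ⟨I, hI, hy⟩ := ex_ok h8 y
      refine Equiv.ext fun π => T.inj _ _ I hI ?_
      filter_upwards [hl u (e y π) I hI, he y π I hI hy, he y (l u π) I hI hy,
        (tendsto_conj (of_mem_std (Finset.mem_coe.2 hy))).eventually (hl u π I hI)]
        with w h1 h2 h3 h4
      rw [Equiv.Perm.mul_apply, Equiv.Perm.mul_apply, h1, h2, h3, h4]
    have h2 : Commute (l u) (FreeGroup.lift e t) := by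
      induction t using FreeGroup.induction_on with
      | C1 => rw [map_one]; exact Commute.one_right _
      | of y => rw [hr]; exact h1 y
      | inv_of y ih => rw [map_inv]; exact ih.inv_right
      | mul a b ha hb => rw [map_mul]; exact ha.mul_right hb
    exact congrArg (fun q : Equiv.Perm T.Φ => q π) h2.eq

end Pool.Agent.MP_3ce0a0_al.Q2T14
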