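import Pool.Agent.MP_3ce0a0_al.Q2T14.Basic

/-! Row ATLAS: compatible families of ports. -/

set_option autoImplicit false

namespace Pool.Agent.MP_3ce0a0_al.Q2T14

open Pool.Agent.MP_3ce0a0_al.H79 Pool.Agent.MP_3ce0a0_al.Q2T15 Filter

namespace RAtlas

variable {α F : Type} [Group F] {ρ : Out (FreeGroup α) →* Out F}
  {P : Finset α → (FreeGroup α → F) → Prop}

/-- Compatible families on the ground set `G`. -/
structure Fam (P : Finset α → (FreeGroup α → F) → Prop) (G : Finset α)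
    (s : Finset α → FreeGroup α → F) : Prop where
  mem : ∀ I, Ok I → I ⊆ G → P I (s I)
  cmp : ∀ J I, Ok J → Ok I → J ⊆ I → I ⊆ G → s I =ᶠ[deep J] s J

theorem step [DecidableEq α] (h : PortSys ρ P) {G : Finset α} {s : Finset α → FreeGroup α → F}
    (hs : Fam P G s) (hG : 3 ≤ G.card) {ω : α} (hω : ω ∉ G) :
    ∃ s', Fam P (insert ω G) s' ∧ ∀ I, ω ∉ I → s' I = s I := by
  have sub : ∀ K : Finset α, K ⊆ insert ω G → K.erase ω ⊆ G := fun K hK =>
    Finset.subset_insert_iff.1 hK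
  have oke : ∀ K : Finset α, ω ∈ K → 4 ≤ K.card → K.card ≤ 5 → Ok (K.erase ω) :=
    fun K h1 h2 h3 => by
      have := Finset.card_erase_of_mem h1
      exact ⟨by omega, by omega⟩
  have h0 : ∀ K : Finset α, ∃ g, ω ∈ K → 4 ≤ K.card → K.card ≤ 5 → K ⊆ insert ω G →
      P K g ∧ g =ᶠ[deep (K.erase ω)] s (K.erase ω) := fun K => by
    by_cases hK : ω ∈ K ∧ 4 ≤ K.card ∧ K.card ≤ 5 ∧ K ⊆ insert ω G
    · obtain ⟨h1, h2, h3, h4⟩ := hK
      obtain ⟨g, hg⟩ := h.ext (K.erase ω) K _ (oke K h1 h2 h3) ⟨by omega, h3⟩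
        (Finset.erase_subset _ _) (hs.mem _ (oke K h1 h2 h3) (sub K h4))
      exact ⟨g, fun _ _ _ _ => hg⟩
    · exact ⟨s K, fun h1 h2 h3 h4 => absurd ⟨h1, h2, h3, h4⟩ hK⟩
  choose e he using h0
  have E1 : ∀ K K' : Finset α, ω ∈ K → 4 ≤ K.card → K'.card ≤ 5 → K ⊆ K' → K' ⊆ insert ω G →
      e K' =ᶠ[deep K] e K := fun K K' h1 h2 h3 h4 h5 => by
    have c := Finset.card_le_card h4
    have a := he K h1 h2 (c.trans h3) (h4.trans h5)
    have b := he K' (h4 h1) (h2.trans c) h3 h5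
    have oK : Ok K := ⟨by omega, c.trans h3⟩
    have s1 : K.erase ω ⊆ K'.erase ω := Finset.erase_subset_erase ω h4
    refine h.inj (K.erase ω) K _ _ (oke K h1 h2 (c.trans h3)) oK (Finset.erase_subset _ _)
      (h.res K K' _ oK ⟨by omega, h3⟩ h4 b.1) a.1 ?_
    exact ((b.2.filter_mono (deep_mono s1)).trans (hs.cmp _ _ (oke K h1 h2 (c.trans h3))
      (oke K' (h4 h1) (h2.trans c) h3) s1 (sub K' h5))).trans a.2.symm
  have E2 : ∀ I K K' : Finset α, ω ∈ I → 3 ≤ I.card → I ⊆ K → I ⊆ K' → 4 ≤ K.card → K.card ≤ 5 →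
      K ⊆ insert ω G → 4 ≤ K'.card → K'.card ≤ 5 → K' ⊆ insert ω G → e K =ᶠ[deep I] e K' := by
    intro I K K' h1 h2 h3 h3' h4 h5 h6 h4' h5' h6'
    have oI : Ok I := ⟨h2, (Finset.card_le_card h3).trans h5⟩
    obtain ⟨J, a1, a2, a3⟩ := Finset.exists_subsuperset_card_eq
      (Finset.singleton_subset_iff.2 h1) (by rw [Finset.card_singleton]; omega : _ ≤ 3) h2
    have hJ : ω ∈ J := a1 (Finset.mem_singleton_self ω)
    obtain ⟨L, b1, b2, b3⟩ := Finset.exists_subsuperset_card_eq (a2.trans h3)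
      (by omega : J.card ≤ 4) h4
    obtain ⟨L', c1, c2, c3⟩ := Finset.exists_subsuperset_card_eq (a2.trans h3')
      (by omega : J.card ≤ 4) h4'
    have u5 : (L ∪ L').card ≤ 5 := by
      have e1 := Finset.card_union_add_card_inter L L'
      have e2 := Finset.card_le_card (Finset.subset_inter b1 c1)
      omega
    have uG : L ∪ L' ⊆ insert ω G := Finset.union_subset (b2.trans h6) (c2.trans h6')
    refine h.inj J I _ _ ⟨a3.ge, by omega⟩ oI a2
      (h.res I K _ oI ⟨by omega, h5⟩ h3 (he K (h3 h1) h4 h5 h6).1)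
      (h.res I K' _ oI ⟨by omega, h5'⟩ h3' (he K' (h3' h1) h4' h5' h6').1) ?_
    have q1 := (E1 L K (b1 hJ) b3.ge h5 b2 h6).filter_mono (deep_mono b1)
    have q2 := (E1 L _ (b1 hJ) b3.ge u5 Finset.subset_union_left uG).filter_mono (deep_mono b1)
    have q3 := (E1 L' _ (c1 hJ) c3.ge u5 Finset.subset_union_right uG).filter_mono (deep_mono c1)
    have q4 := (E1 L' K' (c1 hJ) c3.ge h5' c2 h6').filter_mono (deep_mono c1)
    exact EventuallyEq.trans (EventuallyEq.trans q1 (EventuallyEq.symm q2))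
      (EventuallyEq.trans q3 (EventuallyEq.symm q4))
  have hH : ∀ I : Finset α, ∃ H : Finset α, Ok I → I ⊆ insert ω G →
      I ⊆ H ∧ 4 ≤ H.card ∧ H.card ≤ 5 ∧ H ⊆ insert ω G := fun I => by
    by_cases h4 : 4 ≤ I.card
    · exact ⟨I, fun a b => ⟨subset_rfl, h4, a.2, b⟩⟩
    by_cases hI : I ⊆ insert ω G
    · obtain ⟨H, a1, a2, a3⟩ := Finset.exists_subsuperset_card_eq hI (by omega : I.card ≤ 4)
        (by rw [Finset.card_insert_of_notMem hω]; omega)
      exact ⟨H, fun _ _ => ⟨a1, a3.ge, by omega, a2⟩⟩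
    · exact ⟨I, fun _ b => absurd b hI⟩
  choose H hH using hH
  refine ⟨fun I => if ω ∈ I then e (H I) else s I, ⟨fun I oI hI => ?_, fun J I oJ oI hJ hI => ?_⟩,
    fun I hI => if_neg hI⟩
  · by_cases h1 : ω ∈ I
    · obtain ⟨a1, a2, a3, a4⟩ := hH I oI hI
      rw [if_pos h1]
      exact h.res I (H I) _ oI ⟨by omega, a3⟩ a1 (he _ (a1 h1) a2 a3 a4).1
    · rw [if_neg h1]
      exact hs.mem I oI ((Finset.subset_insert_iff_of_notMem h1).1 hI)
  · obtain ⟨a1, a2, a3, a4⟩ := hH I oI hI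
    by_cases h1 : ω ∈ J
    · obtain ⟨b1, b2, b3, b4⟩ := hH J oJ (hJ.trans hI)
      rw [if_pos h1, if_pos (hJ h1)]
      exact E2 J _ _ h1 oJ.1 (hJ.trans a1) b1 a2 a3 a4 b2 b3 b4
    · rw [if_neg h1]
      by_cases h2 : ω ∈ I
      · rw [if_pos h2]
        have s1 : J ⊆ (H I).erase ω := Finset.subset_erase.2 ⟨hJ.trans a1, h1⟩
        exact ((he _ (a1 h2) a2 a3 a4).2.filter_mono (deep_mono s1)).trans
          (hs.cmp _ _ oJ (oke _ (a1 h2) a2 a3) s1 (sub _ a4))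
      · rw [if_neg h2]
        exact hs.cmp J I oJ oI hJ ((Finset.subset_insert_iff_of_notMem h2).1 hI)

theorem fam [DecidableEq α] (h : PortSys ρ P) {I₀ : Finset α} {f : FreeGroup α → F} (o : Ok I₀)
    (hf : P I₀ f) (D : Finset α) : ∃ s, Fam P (D ∪ I₀) s ∧ s I₀ = f := by
  induction D using Finset.induction_on with
  | empty =>
    rw [Finset.empty_union]
    exact ⟨fun _ => f, ⟨fun I oI hI => h.res I I₀ f oI o hI hf,
      fun _ _ _ _ _ _ => EventuallyEq.rfl⟩, rfl⟩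
  | insert ω D _ ih =>
    obtain ⟨s, hs, e⟩ := ih
    rw [Finset.insert_union]
    by_cases hω : ω ∈ D ∪ I₀
    · rw [Finset.insert_eq_of_mem hω]
      exact ⟨s, hs, e⟩
    · obtain ⟨s', hs', e'⟩ := step h hs
        (o.1.trans (Finset.card_le_card Finset.subset_union_right)) hω
      exact ⟨s', hs', (e' I₀ fun x => hω (Finset.mem_union_right _ x)).trans e⟩

theorem glob [Finite α] (h : PortSys ρ P) {I₀ : Finset α} {f : FreeGroup α → F} (o : Ok I₀)
    (hf : P I₀ f) : ∃ g, (∀ I, Ok I → P I g) ∧ g =ᶠ[deep I₀] f := by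
  classical
  have := Fintype.ofFinite α
  obtain ⟨s, hs, e⟩ := fam h o hf Finset.univ
  have hu : ∀ I : Finset α, I ⊆ Finset.univ ∪ I₀ := fun I =>
    (Finset.subset_univ I).trans Finset.subset_union_left
  have c : ∀ I J, Ok I → Ok J → s I =ᶠ[deep (I ∩ J)] s J := fun I J oI oJ => by
    refine swap 5 (by norm_num) (I ∩ J) ∅ (fun K => s I =ᶠ[deep (I ∩ J)] s K) ?_ oI.1 oI.2
      Finset.inter_subset_left (Finset.disjoint_empty_right _) oJ.1 oJ.2
      Finset.inter_subset_right (Finset.disjoint_empty_right _) EventuallyEq.rfl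
    intro L K h1 h2 h3 h4 _
    have c := Finset.card_le_card h3
    have q := (hs.cmp L K ⟨h1, c.trans h2⟩ ⟨h1.trans c, h2⟩ h3 (hu K)).filter_mono (deep_mono h4)
    exact ⟨fun x => EventuallyEq.trans x (EventuallyEq.symm q), fun x => EventuallyEq.trans x q⟩
  have hJ : ∀ w : FreeGroup α, ∃ J : Finset α, (∃ I : Finset α, Ok I ∧ w ∈ std (I : Set α)) →
      Ok J ∧ w ∈ std (J : Set α) := fun w => by
    by_cases hw : ∃ I : Finset α, Ok I ∧ w ∈ std (I : Set α)
    · obtain ⟨I, hI⟩ := hw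
      exact ⟨I, fun _ => hI⟩
    · exact ⟨∅, fun x => absurd x hw⟩
  choose J hJ using hJ
  have key : ∀ I, Ok I → (fun w => s (J w) w) =ᶠ[deep I] s I := fun I oI => by
    have a : ∀ᶠ w in deep I, ∀ K : Finset α, Ok K → w ∈ std (K : Set α) → s I w = s K w := by
      refine Filter.eventually_all.2 fun K => ?_
      by_cases oK : Ok K
      · obtain ⟨Λ, hΛ, hh⟩ := eventually_deep.1 (c I K oI oK)
        refine eventually_deep.2 ⟨Λ, hΛ, fun w hw hI _ hK => hh w hw ?_⟩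
        rw [Finset.coe_inter, std_inter]
        exact ⟨hI, hK⟩
      · exact Eventually.of_forall fun _ x => absurd x oK
    filter_upwards [a, ev_std I] with w hw hI
    obtain ⟨x, y⟩ := hJ w ⟨I, oI, hI⟩
    exact (hw _ x y).symm
  exact ⟨fun w => s (J w) w, fun I oI => h.congr I _ _ oI (hs.mem I oI (hu I)) (key I oI).symm,
    e ▸ key I₀ o⟩

end RAtlas

theorem rowAtlas : StmtAtlas := by
  intro α F _ _ ρ P h
  let S : Setoid {f : FreeGroup α → F // ∀ I, Ok I → P I f} :=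
    ⟨fun f g => ∀ I, Ok I → f.1 =ᶠ[deep I] g.1, fun _ _ _ => EventuallyEq.rfl,
      fun a I o => (a I o).symm, fun a b I o => (a I o).trans (b I o)⟩
  refine ⟨⟨Quotient S, fun π => π.out.1, fun π => π.out.2, fun π π' I o e => ?_,
    fun I f o hf => ?_⟩⟩
  · refine Quotient.out_equiv_out.1 fun I' o' => ?_
    exact h.spread ∅ (fun K oK _ => π.out.2 K oK) (fun K oK _ => π'.out.2 K oK) o
      (Finset.empty_subset _) o' (Finset.empty_subset _) e
  · obtain ⟨g, hg, e⟩ := RAtlas.glob h o hf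
    exact ⟨Quotient.mk S ⟨g, hg⟩, (Quotient.mk_out (s := S) ⟨g, hg⟩ I o).trans e⟩

end Pool.Agent.MP_3ce0a0_al.Q2T14
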