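import Pool.Agent.MP_3ce0a0_al.Q2T14.Basic

/-! Row CHARTS: the graphs of sections as quotients of the subdivided Schreier graph. -/

set_option autoImplicit false

namespace Pool.Agent.MP_3ce0a0_al.Q2T14

open Pool.Agent.MP_3ce0a0_al.H79 Pool.Agent.MP_3ce0a0_al.Q2T15 Filter

namespace RCharts

variable {α F : Type} [Group F] {ρ : Out (FreeGroup α) →* Out F}
  {P : Finset α → (FreeGroup α → F) → Prop}

theorem sec_far {A : Acts P} (hK : A.KI ρ) {I L : Finset α} (hc : Ch I L) (ω : Wall A.Φ α) :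
    A.sec ρ I (far A.r ω) =ᶠ[deepK I L] tv ρ I (A.rep ω.1) ω.2 := by
  obtain ⟨π, z, _ | _⟩ := ω
  · exact EventuallyEq.rfl
  · exact (hK I L π z hc).symm

theorem multi_eq {J K I : Finset α} (hJ : J ⊆ I) (hd : Disjoint I K) {β : Par α}
    (hβ : InK J K ⊤ β) : multi (J : Set α) β = multi (I : Set α) β := by
  refine aut_ext fun x => ?_
  by_cases h1 : x ∈ J
  · rw [multi_of_mem β (Finset.mem_coe.2 h1), multi_of_mem β (Finset.mem_coe.2 (hJ h1))]
  · rw [multi_of_std (fun h => (hβ h).2.1) (fun h => h1 (Finset.mem_coe.1 h))]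
    by_cases h2 : x ∈ I
    · have h3 : x ∉ K := Finset.disjoint_left.1 hd h2
      rw [multi_of_mem β (Finset.mem_coe.2 h2), (hβ (x, false)).2.2 h3, (hβ (x, true)).2.2 h3,
        inv_one, one_mul, mul_one]
    · rw [multi_of_std (fun h => std_mono (Finset.coe_subset.2 hJ) (hβ h).2.1)
        (fun h => h2 (Finset.mem_coe.1 h))]

theorem sig_res (hP : PortSys ρ P) {J K I : Finset α} (hJ : Ok J) (hI : Ch I K) (hJI : J ⊆ I)
    {f : FreeGroup α → F} (hf : P I f) : sig ρ J f =ᶠ[deepK J K] sig ρ I f := by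
  filter_upwards [(hP.ev_isSig hI hf).filter_mono (deepK_mono hJI subset_rfl), evK J K ⊤]
    with β h1 h2
  refine IsSig.eq_sig (fun u => hP.free J f u hJ (hP.res J I f hJ hI.ok hJI hf))
    ⟨?_, h1.2.filter_mono (deep_mono hJI)⟩
  rw [multi_eq hJI hI.2.2.2 h2]
  exact h1.1

theorem sec_res (hP : PortSys ρ P) (A : Acts P) {J K I : Finset α} (hJ : Ok J) (hI : Ch I K)
    (hJI : J ⊆ I) (a : Node A.Φ α) : A.sec ρ J a =ᶠ[deepK J K] A.sec ρ I a := by
  obtain ⟨π, _ | z⟩ := a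
  · exact sig_res hP hJ hI hJI (A.mem π I hI.ok)
  · filter_upwards [sig_res hP hJ hI hJI (A.mem π I hI.ok)] with β h
    exact congrArg (fun s => MulAut.conj (A.rep π (β (z, false))) * s) h

theorem loop (hP : PortSys ρ P) {A : Acts P} (hK : A.KI ρ) {I L : Finset α} (ω : Wall A.Φ α)
    (hc : Ch I L) (h : ω.2.1 ∉ L) : A.R ρ I L (near ω) (far A.r ω) := by
  refine EventuallyEq.trans ?_ (sec_far hK hc ω).symm
  filter_upwards [evK I L ⊤] with β hβ
  change sig ρ I (A.rep ω.1) β = MulAut.conj (A.rep ω.1 (β ω.2)) * sig ρ I (A.rep ω.1) β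
  rw [(hβ ω.2).2.2 h, hP.map_one hc.ok (A.mem _ I hc.ok), map_one, one_mul]

theorem sat_iff {I L : Finset α} {S : Set (Par α → MulAut F)} (hS : Sat I L S)
    {s s' : Par α → MulAut F} (e : s =ᶠ[deepK I L] s') : s ∈ S ↔ s' ∈ S :=
  ⟨hS s s' e, hS s' s e.symm⟩

theorem conn (hP : PortSys ρ P) {A : Acts P} (hK : A.KI ρ) {I L : Finset α} (a b : Node A.Φ α)
    (hc : Ch I L) : Jn A.r (A.R ρ I L) Set.univ a b := by
  have h0 : ∀ c : Node A.Φ α, Jn A.r (A.R ρ I L) Set.univ (c.1, none) c := by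
    rintro ⟨π, _ | z⟩
    · exact Relation.EqvGen.refl _
    · exact Relation.EqvGen.rel _ _ (Or.inr ⟨(π, (z, false)), trivial, rfl, rfl⟩)
  set S : Set (Par α → MulAut F) := {s | ∃ c, A.sec ρ I c =ᶠ[deepK I L] s ∧
    Jn A.r (A.R ρ I L) Set.univ a c} with hS
  have h1 : Sat I L S := fun s s' e ⟨c, h, k⟩ => ⟨c, h.trans e, k⟩
  have h2 : ∀ d, A.sec ρ I d ∈ S ↔ Jn A.r (A.R ρ I L) Set.univ a d := fun d =>
    ⟨fun ⟨c, h, k⟩ => Relation.EqvGen.trans _ _ _ k (Relation.EqvGen.rel _ _ (Or.inl h)),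
      fun k => ⟨d, EventuallyEq.rfl, k⟩⟩
  have h3 := hP.conn I L S hc h1 (fun f h hf _ => ?_) _ _ (A.mem a.1 I hc.ok) (A.mem b.1 I hc.ok)
    ((h2 (a.1, none)).2 (Relation.EqvGen.symm _ _ (h0 a)))
  · exact Relation.EqvGen.trans _ _ _ ((h2 (b.1, none)).1 h3) (h0 b)
  · obtain ⟨π, hπ⟩ := A.sur I f hc.ok hf
    have k : Jn A.r (A.R ρ I L) Set.univ (near (π, h)) (far A.r (π, h)) :=
      Relation.EqvGen.rel _ _ (Or.inr ⟨(π, h), trivial, rfl, rfl⟩)
    rw [← sig_congr hπ, ← sat_iff h1 ((sec_far hK hc (π, h)).trans (tv_congr L hπ h)), h2]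
    exact (h2 (near (π, h))).trans ⟨fun j => Relation.EqvGen.trans _ _ _ j k,
      fun j => Relation.EqvGen.trans _ _ _ j (Relation.EqvGen.symm _ _ k)⟩

theorem acyc (hP : PortSys ρ P) {A : Acts P} (hK : A.KI ρ) {I : Finset α} (ω : Wall A.Φ α)
    (hc : Ch I {ω.2.1}) : ¬ Jn A.r (A.R ρ I {ω.2.1}) {ω}ᶜ (near ω) (far A.r ω) := by
  obtain ⟨S, h1, h2, h3, h4⟩ := hP.acyc I (A.rep ω.1) ω.2 hc (A.mem _ I hc.ok)
  have key : ∀ a b, Jn A.r (A.R ρ I {ω.2.1}) {ω}ᶜ a b →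
      (A.sec ρ I a ∈ S ↔ A.sec ρ I b ∈ S) := by
    intro a b h
    induction h with
    | rel a b h =>
      rcases h with h | ⟨ω', hω, rfl, rfl⟩
      · exact sat_iff h1 h
      · by_cases e : ω'.2.1 = ω.2.1
        · rw [sat_iff h1 (sec_far hK hc ω')]
          exact h4 _ ω'.2 (A.mem _ I hc.ok) e fun k =>
            hω (Prod.ext (A.inj _ _ I hc.ok k.2) k.1)
        · exact sat_iff h1 (loop hP hK ω' hc fun k => e (Finset.mem_singleton.1 k))
    | refl => rfl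
    | symm _ _ _ ih => exact ih.symm
    | trans _ _ _ _ _ i1 i2 => exact i1.trans i2
  exact fun h => h3 ((sat_iff h1 (sec_far hK hc ω)).1 ((key _ _ h).1 h2))

theorem sig_l (hP : PortSys ρ P) (A : Acts P) {I L : Finset α} (hc : Ch I L) (u : F) (π : A.Φ) :
    sig ρ I (A.rep (A.l u π)) =ᶠ[deepK I L]
      fun β => MulAut.conj u * sig ρ I (A.rep π) β * (MulAut.conj u)⁻¹ := by
  filter_upwards [hP.ev_isSig hc (A.mem π I hc.ok)] with β h
  refine IsSig.eq_sig (fun v => hP.free I _ v hc.ok (A.mem _ I hc.ok))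
    (IsSig.congr ⟨?_, h.2.mono fun w hw => ?_⟩ (A.l_rep u π I hc.ok).symm)
  · have := h.1
    unfold Lifts at this ⊢
    rw [map_mul, map_mul, map_inv, mkOut_conj, this, inv_one, one_mul, mul_one]
  · rw [MulAut.mul_apply, MulAut.mul_apply, ← MulAut.conj_apply, MulAut.inv_apply_self, hw]

theorem sec_l (hP : PortSys ρ P) (A : Acts P) {I L : Finset α} (hc : Ch I L) (u : F)
    (a : Node A.Φ α) : A.sec ρ I (A.l u a.1, a.2) =ᶠ[deepK I L]
      fun β => MulAut.conj u * A.sec ρ I a β * (MulAut.conj u)⁻¹ := by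
  obtain ⟨π, _ | z⟩ := a
  · exact sig_l hP A hc u π
  · filter_upwards [sig_l hP A hc u π,
      (tendsto_coord I L (z, false)).eventually (A.l_rep u π I hc.ok)] with β h1 h2
    change MulAut.conj (A.rep (A.l u π) (β (z, false))) * sig ρ I (A.rep (A.l u π)) β =
      MulAut.conj u * (MulAut.conj (A.rep π (β (z, false))) * sig ρ I (A.rep π) β) *
        (MulAut.conj u)⁻¹
    rw [h1, h2, map_mul, map_mul, map_inv]
    group

end RCharts

open RCharts in
theorem rowCharts : StmtCharts := by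
  intro α F _ ρ P A hP hK
  refine ⟨fun J K I L a b hJ hI h1 h2 h => ?_, fun I L ω => loop hP hK ω,
    fun I L a b => conn hP hK a b, fun I ω => acyc hP hK ω, fun I L u a b hc h => ?_,
    fun I L => ⟨fun _ => EventuallyEq.rfl, EventuallyEq.symm, EventuallyEq.trans⟩⟩
  · exact (sec_res hP A hJ.ok (hI.mono h2) h1 a).trans
      ((EventuallyEq.filter_mono h (deepK_mono h1 h2)).trans
        (sec_res hP A hJ.ok (hI.mono h2) h1 b).symm)
  · refine (sec_l hP A hc u a).trans (EventuallyEq.trans ?_ (sec_l hP A hc u b).symm)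
    filter_upwards [h] with β hβ
    rw [hβ]

end Pool.Agent.MP_3ce0a0_al.Q2T14
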