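import Pool.Agent.MP_3ce0a0_al.Q2T14.Basic

/-! The index formula for two commuting free actions of free groups. -/

set_option autoImplicit false

namespace Pool.Agent.MP_3ce0a0_al.Q2T14

namespace RIndex

variable {α β Φ Q : Type} [CommGroup Q]

/-- Functions that change by a character under `l`. -/
abbrev V (Q : Type) [CommGroup Q] (l : FreeGroup β →* Equiv.Perm Φ) : Type :=
  {p : (Φ → Q) × (FreeGroup β →* Q) // ∀ u π, p.1 (l u π) = p.2 u * p.1 π}

theorem card_left {O : Type} (l : FreeGroup β →* Equiv.Perm Φ) (hl : ∀ u π, l u π = π → u = 1)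
    (c : Φ → O) (ρ : O → Φ) (hc : ∀ u π, c (l u π) = c π) (hρ : ∀ o, c (ρ o) = o)
    (hs : ∀ π, ∃ u, l u (ρ (c π)) = π) :
    Nat.card (V Q l) = Nat.card ((O → Q) × (β → Q)) := by
  choose s hs using hs
  have hu : ∀ u v π, l u π = l v π → u = v := by
    intro u v π h
    have h1 : l (v⁻¹ * u) π = π := by
      rw [map_mul, Equiv.Perm.mul_apply, h, ← Equiv.Perm.mul_apply, ← map_mul, inv_mul_cancel,
        map_one, Equiv.Perm.one_apply]
    exact (inv_mul_eq_one.1 (hl _ _ h1)).symm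
  refine Nat.card_eq_of_bijective
    (fun p => (fun o => p.1.1 (ρ o), fun b => p.1.2 (FreeGroup.of b))) ⟨?_, ?_⟩
  · rintro ⟨⟨f, φ⟩, h⟩ ⟨⟨g, ψ⟩, k⟩ e
    obtain ⟨e1, e2⟩ := Prod.ext_iff.1 e
    have h1 : φ = ψ := FreeGroup.ext_hom _ _ fun b => congrFun e2 b
    refine Subtype.ext (Prod.ext (funext fun π => ?_) h1)
    have h2 := h (s π) (ρ (c π))
    have h3 := k (s π) (ρ (c π))
    have h4 : f (ρ (c π)) = g (ρ (c π)) := congrFun e1 (c π)
    rw [hs] at h2 h3
    change f π = φ _ * f _ at h2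
    change g π = ψ _ * g _ at h3
    change f π = g π
    rw [h2, h3, h1, h4]
  · rintro ⟨a, b⟩
    refine ⟨⟨(fun π => FreeGroup.lift b (s π) * a (c π), FreeGroup.lift b), fun u π => ?_⟩,
      Prod.ext (funext fun o => ?_) (funext fun x => ?_)⟩
    · have h1 : s (l u π) = u * s π := by
        refine hu _ _ (ρ (c π)) ?_
        rw [map_mul, Equiv.Perm.mul_apply, hs, ← hc u π, hs]
      change FreeGroup.lift b (s (l u π)) * a (c (l u π)) =
        FreeGroup.lift b u * (FreeGroup.lift b (s π) * a (c π))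
      rw [h1, hc, map_mul, mul_assoc]
    · have h1 : s (ρ o) = 1 := by
        refine hl _ (ρ o) ?_
        have h2 := hs (ρ o)
        rwa [hρ] at h2
      change FreeGroup.lift b (s (ρ o)) * a (c (ρ o)) = a o
      rw [h1, map_one, one_mul, hρ]
    · exact FreeGroup.lift_apply_of

omit [CommGroup Q] in
theorem inv_of_gen (r : FreeGroup α →* Equiv.Perm Φ) (h : Φ → Q)
    (hh : ∀ x π, h (r (FreeGroup.of x) π) = h π) (t : FreeGroup α) : ∀ π, h (r t π) = h π := by
  induction t using FreeGroup.induction_on with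
  | C1 => intro π; rw [map_one, Equiv.Perm.one_apply]
  | of x => exact hh x
  | inv_of x ih =>
    intro π
    rw [← ih (r (FreeGroup.of x)⁻¹ π), ← Equiv.Perm.mul_apply, ← map_mul, mul_inv_cancel, map_one,
      Equiv.Perm.one_apply]
  | mul x y hx hy => intro π; rw [map_mul, Equiv.Perm.mul_apply, hx, hy]

/-- A skew product over a permutation. -/
def skew (σ : Equiv.Perm Φ) (g : Φ → Q) : Equiv.Perm (Φ × Q) where
  toFun z := (σ z.1, g z.1 * z.2)
  invFun z := (σ.symm z.1, (g (σ.symm z.1))⁻¹ * z.2)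
  left_inv z := by simp
  right_inv z := by simp

theorem exists_prim (r : FreeGroup α →* Equiv.Perm Φ) (hr : ∀ t π, r t π = π → t = 1)
    (ht : ∀ π π', ∃ t, r t π = π') (π₀ : Φ) (q : Q) (g : α → Φ → Q) :
    ∃ f : Φ → Q, f π₀ = q ∧ ∀ x π, f (r (FreeGroup.of x) π) = g x π * f π := by
  let R : FreeGroup α →* Equiv.Perm (Φ × Q) :=
    FreeGroup.lift fun x => skew (r (FreeGroup.of x)) (g x)
  have hR : ∀ x, R (FreeGroup.of x) = skew (r (FreeGroup.of x)) (g x) := fun x =>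
    FreeGroup.lift_apply_of
  have h1 : ∀ t z, (R t z).1 = r t z.1 := by
    intro t
    induction t using FreeGroup.induction_on with
    | C1 => intro z; simp
    | of x => intro z; rw [hR]; rfl
    | inv_of x _ => intro z; rw [map_inv, map_inv, hR]; rfl
    | mul x y hx hy => intro z; rw [map_mul, map_mul, Equiv.Perm.mul_apply, hx, hy]; rfl
  choose s hs using ht π₀
  have hu : ∀ u v, r u π₀ = r v π₀ → u = v := by
    intro u v h
    have h2 : r (v⁻¹ * u) π₀ = π₀ := by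
      rw [map_mul, Equiv.Perm.mul_apply, h, ← Equiv.Perm.mul_apply, ← map_mul, inv_mul_cancel,
        map_one, Equiv.Perm.one_apply]
    exact (inv_mul_eq_one.1 (hr _ _ h2)).symm
  refine ⟨fun π => (R (s π) (π₀, q)).2, ?_, fun x π => ?_⟩
  · have h2 : s π₀ = 1 := hr _ _ (hs π₀)
    change (R (s π₀) (π₀, q)).2 = q
    rw [h2, map_one, Equiv.Perm.one_apply]
  · have h2 : s (r (FreeGroup.of x) π) = FreeGroup.of x * s π := by
      refine hu _ _ ?_
      rw [map_mul, Equiv.Perm.mul_apply, hs, hs]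
    change (R (s (r (FreeGroup.of x) π)) (π₀, q)).2 = g x π * (R (s π) (π₀, q)).2
    rw [h2, map_mul, Equiv.Perm.mul_apply, hR]
    change g x (R (s π) (π₀, q)).1 * _ = _
    rw [h1, hs]

theorem card_right {O : Type} (l : FreeGroup β →* Equiv.Perm Φ) (r : FreeGroup α →* Equiv.Perm Φ)
    (hlr : ∀ u t π, l u (r t π) = r t (l u π)) (hr : ∀ t π, r t π = π → t = 1)
    (ht : ∀ π π', ∃ t, r t π = π') (π₀ : Φ)
    (c : Φ → O) (ρ : O → Φ) (hc : ∀ u π, c (l u π) = c π) (hρ : ∀ o, c (ρ o) = o)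
    (hs : ∀ π, ∃ u, l u (ρ (c π)) = π) :
    Nat.card (V Q l) = Nat.card (Q × (α → O → Q)) := by
  refine Nat.card_eq_of_bijective (fun p => (p.1.1 π₀,
    fun x o => p.1.1 (r (FreeGroup.of x) (ρ o)) * (p.1.1 (ρ o))⁻¹)) ⟨?_, ?_⟩
  · rintro ⟨⟨f, φ⟩, h⟩ ⟨⟨g, ψ⟩, k⟩ e
    obtain ⟨e1, e2⟩ := Prod.ext_iff.1 e
    change ∀ u π, f (l u π) = φ u * f π at h
    change ∀ u π, g (l u π) = ψ u * g π at k
    change f π₀ = g π₀ at e1
    have h1 : ∀ t π, (fun π => f π * (g π)⁻¹) (r t π) = (fun π => f π * (g π)⁻¹) π := by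
      intro t
      refine inv_of_gen r (fun π => f π * (g π)⁻¹) (fun x π => ?_) t
      obtain ⟨u, hu⟩ := hs π
      have h2 : f (r (FreeGroup.of x) (ρ (c π))) * (f (ρ (c π)))⁻¹ =
          g (r (FreeGroup.of x) (ρ (c π))) * (g (ρ (c π)))⁻¹ := congrFun (congrFun e2 x) (c π)
      generalize ρ (c π) = y at hu h2
      subst hu
      change f _ * (g _)⁻¹ = f _ * (g _)⁻¹
      rw [← hlr, h, h, k, k, eq_mul_of_mul_inv_eq h2]
      simp only [mul_inv_rev, mul_assoc, mul_comm, mul_left_comm, mul_inv_cancel_left,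
        inv_mul_cancel_left]
    have h3 : f = g := by
      funext π
      obtain ⟨t, rfl⟩ := ht π₀ π
      have h4 : f (r t π₀) * (g (r t π₀))⁻¹ = f π₀ * (g π₀)⁻¹ := h1 t π₀
      rw [e1, mul_inv_cancel] at h4
      exact mul_inv_eq_one.1 h4
    subst h3
    refine Subtype.ext (Prod.ext rfl (MonoidHom.ext fun u => ?_))
    exact mul_right_cancel ((h u π₀).symm.trans (k u π₀))
  · rintro ⟨q, a⟩
    obtain ⟨f, h0, hf⟩ := exists_prim r hr ht π₀ q fun x π => a x (c π)
    have h1 : ∀ u π, f (l u π) = f (l u π₀) * (f π₀)⁻¹ * f π := by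
      intro u π
      obtain ⟨t, rfl⟩ := ht π₀ π
      have h2 : f (l u (r t π₀)) * (f (r t π₀))⁻¹ = f (l u π₀) * (f π₀)⁻¹ := by
        refine inv_of_gen r (fun π => f (l u π) * (f π)⁻¹) (fun x π => ?_) t π₀
        change f _ * (f _)⁻¹ = f _ * (f _)⁻¹
        rw [hlr, hf, hf, hc, mul_inv_rev, mul_comm (a x (c π)), mul_assoc, mul_comm (f π)⁻¹,
          mul_inv_cancel_left]
      exact eq_mul_of_mul_inv_eq h2
    refine ⟨⟨(f, MonoidHom.mk' (fun u => f (l u π₀) * (f π₀)⁻¹) fun u v => ?_), h1⟩,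
      Prod.ext h0 (funext fun x => funext fun o => ?_)⟩
    · rw [map_mul, Equiv.Perm.mul_apply, h1 u (l v π₀), mul_assoc (f (l u π₀) * (f π₀)⁻¹)]
    · change f _ * (f _)⁻¹ = a x o
      rw [hf, hρ, mul_inv_cancel_right]

end RIndex

theorem rowIndex : StmtIndex := by
  intro α β Φ _ _ hΦ l r hlr hl hT hr ht
  obtain ⟨π₀⟩ := hΦ
  obtain ⟨T, hT, hT'⟩ := hT
  let S : Setoid Φ := ⟨fun a b => ∃ u, l u a = b, fun a => ⟨1, by simp⟩,
    fun ⟨u, hu⟩ => ⟨u⁻¹, by rw [← hu, map_inv]; simp⟩,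
    fun ⟨u, hu⟩ ⟨v, hv⟩ => ⟨v * u, by rw [map_mul, Equiv.Perm.mul_apply, hu, hv]⟩⟩
  have hc : ∀ u π, Quotient.mk S (l u π) = Quotient.mk S π := fun u π =>
    (Quotient.sound (s := S) (a := π) (b := l u π) ⟨u, rfl⟩).symm
  have hs : ∀ π, ∃ u, l u (Quotient.mk S π).out = π := fun π => Quotient.mk_out (s := S) π
  have : Finite T := hT.to_subtype
  have : Finite (Quotient S) := by
    refine Finite.of_surjective (fun p : T => Quotient.mk S p.1) fun o => ?_
    obtain ⟨p, hp, u, hu⟩ := hT' o.out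
    refine ⟨⟨p, hp⟩, ?_⟩
    change Quotient.mk S p = o
    rw [← hc u p, ← hu, Quotient.out_eq]
  have h1 := RIndex.card_left (Q := ℤˣ) l hl (Quotient.mk S) Quotient.out hc Quotient.out_eq hs
  have h2 := RIndex.card_right (Q := ℤˣ) l r hlr hr ht π₀ (Quotient.mk S) Quotient.out hc
    Quotient.out_eq hs
  have h3 : Nat.card ℤˣ = 2 := by rw [Nat.card_eq_fintype_card, Fintype.card_units_int]
  rw [h1] at h2
  simp only [Nat.card_prod, Nat.card_fun, h3] at h2
  rw [← pow_add, ← pow_mul, ← pow_succ'] at h2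
  have h4 := Nat.pow_right_injective (le_refl 2) h2
  generalize Nat.card (Quotient S) = d at h4
  generalize Nat.card α = n at h4
  generalize Nat.card β = m at h4
  rcases n with _ | n
  · have h5 : m - 1 = 0 := by omega
    rw [h5]
  · refine ⟨d, ?_⟩
    rw [Nat.mul_succ] at h4
    rw [Nat.add_sub_cancel, mul_comm]
    omega

end Pool.Agent.MP_3ce0a0_al.Q2T14
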