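import Pool.Agent.MP_3ce0a0_al.Q2T14.Basic

/-! Row INN: ports are stable under conjugation in the source. -/

set_option autoImplicit false

namespace Pool.Agent.MP_3ce0a0_al.Q2T14

open Pool.Agent.MP_3ce0a0_al.H79 Pool.Agent.MP_3ce0a0_al.Q2T15 Filter

namespace RInn

variable {α : Type}

theorem mem_NA {J : Set α} {γ : MulAut (FreeGroup α)}
    (h1 : ∀ x, x ∉ J → γ (FreeGroup.of x) = FreeGroup.of x)
    (h2 : ∀ x ∈ J, γ (FreeGroup.of x) ∈ std J) (h3 : ∀ x ∈ J, γ⁻¹ (FreeGroup.of x) ∈ std J) :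
    γ ∈ NA J :=
  ⟨h1, fun w => ⟨fun h => by simpa using aut_mem_std h3 h, aut_mem_std h2⟩⟩

theorem NA_mono {I J : Set α} (h : I ⊆ J) : NA I ≤ NA J := by
  have key : ∀ γ ∈ NA I, ∀ x ∈ J, γ (FreeGroup.of x) ∈ std J := fun γ hγ x hx => by
    by_cases hI : x ∈ I
    · exact std_mono h ((hγ.2 _).2 (of_mem_std hI))
    · rw [hγ.1 x hI]
      exact of_mem_std hx
  exact fun γ hγ => mem_NA (fun x hx => hγ.1 x fun e => hx (h e)) (key γ hγ) (key _ (inv_mem hγ))

theorem multi_iff (I : Set α) (β : α × Bool → FreeGroup α) (w : FreeGroup α) :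
    multi I β w ∈ std I ↔ w ∈ std I := by
  refine ⟨fun h => ?_, fun h => (multi_std β h).symm ▸ h⟩
  have e := multi_std β⁻¹ h
  rw [map_inv, MulAut.inv_apply_self] at e
  exact e ▸ h

theorem multi_NA {I : Set α} {x : α} (hx : x ∉ I) {β : α × Bool → FreeGroup α}
    (hβ : ∀ s, β (x, s) = 1) : multi I β ∈ NA ({x}ᶜ : Set α) := by
  have key : ∀ β : α × Bool → FreeGroup α, ∀ y ∈ ({x}ᶜ : Set α),
      multi I β (FreeGroup.of y) ∈ std ({x}ᶜ : Set α) := fun β y hy => by
    by_cases hI : y ∈ I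
    · rw [multi_of_mem β hI]
      exact of_mem_std hy
    · rw [multi_of_not_mem β hI]
      exact mul_mem (mul_mem (inv_mem (mem_std_compl hx (ret_mem _ _))) (of_mem_std hy))
        (mem_std_compl hx (ret_mem _ _))
  refine mem_NA (fun y hy => ?_) (key β) (map_inv (multi I) β ▸ key β⁻¹)
  obtain rfl : y = x := not_not.1 hy
  rw [multi_of_not_mem β hx, hβ, hβ, map_one, inv_one, one_mul, mul_one]

variable {F : Type} [Group F] {ρ : Out (FreeGroup α) →* Out F}
  {P : Finset α → (FreeGroup α → F) → Prop}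

theorem step (h : PortSys ρ P) {I : Finset α} {f : FreeGroup α → F} (hI : Ok I) (hf : P I f)
    {x : α} (hx : x ∉ I) {β : α × Bool → FreeGroup α} (hβ : ∀ s, β (x, s) = 1) {a : MulAut F}
    (ha : Lifts ρ (multi (I : Set α) β) a) : P I fun w => a⁻¹ (f w) := by
  refine h.congr I _ _ hI (h.aut I f x _ _ hI hf hx (inv_mem (multi_NA hx hβ))
    (map_inv (multi (I : Set α)) β ▸ multi_iff _ β⁻¹) ha.inv) ((ev_std I).mono fun w hw => ?_)
  simp only [inv_inv, multi_std β hw]

end RInn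

open RInn in
theorem rowInn : StmtInn := by
  classical
  intro α F _ _ ρ P h8 h I f t hI hf ht
  obtain ⟨x, hx⟩ := exists_notMem (S := I) (by have := hI.2; omega)
  obtain ⟨y, hy⟩ := exists_notMem (S := insert x I)
    (by have := hI.2; have := Finset.card_insert_le x I; omega)
  rw [Finset.mem_insert, not_or] at hy
  let β₁ : α × Bool → FreeGroup α := fun k => if k.1 = x then t else 1
  let β₂ : α × Bool → FreeGroup α := fun k => if k.1 = x then 1 else t
  have hβ : β₁ * β₂ = fun _ => t := by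
    funext k
    by_cases hk : k.1 = x <;> simp [β₁, β₂, hk]
  obtain ⟨a₁, h1⟩ := exists_lift ρ (multi (I : Set α) β₁)
  obtain ⟨a₂, h2⟩ := exists_lift ρ (multi (I : Set α) β₂)
  have h3 : Lifts ρ (MulAut.conj t * multi (I : Set α) fun _ => t) (a₁ * a₂) := by
    have := (lifts_conj t 1).mul (h1.mul h2)
    rwa [map_one, one_mul, ← map_mul, hβ] at this
  have hg : (MulAut.conj t * multi (I : Set α) fun _ => t) ∈ NA (I : Set α) := by
    refine ⟨fun z hz => ?_, fun w => ?_⟩
    · rw [MulAut.mul_apply, multi_of_std (fun _ => ht) hz, MulAut.conj_apply]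
      group
    · rw [MulAut.mul_apply, MulAut.conj_apply, Subgroup.mul_mem_cancel_right _ (inv_mem ht),
        Subgroup.mul_mem_cancel_left _ ht, multi_iff]
  have k0 := h.aut I f x _ _ hI hf hx (NA_mono (Set.subset_compl_singleton_iff.2 hx) hg) hg.2 h3
  have k1 := step h hI k0 hy.2 (fun _ => if_neg hy.1) h1
  have k2 := step h hI k1 hx (fun _ => if_pos rfl) h2
  refine h.congr I _ _ hI k2 ((ev_std I).mono fun w hw => ?_)
  have e : (MulAut.conj t * multi (I : Set α) fun _ => t)⁻¹ w = t⁻¹ * w * t := by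
    rw [mul_inv_rev, MulAut.mul_apply, ← map_inv, ← map_inv, MulAut.conj_apply, inv_inv]
    exact multi_std _ (mul_mem (mul_mem (inv_mem ht) hw) ht)
  simp only [e, MulAut.mul_apply, MulAut.inv_apply_self]

end Pool.Agent.MP_3ce0a0_al.Q2T14
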