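import Pool.Agent.MP_3ce0a0_al.Q2T14.Basic

/-! Row KI: the two ports at a midpoint have the same end. -/

set_option autoImplicit false

namespace Pool.Agent.MP_3ce0a0_al.Q2T14

open Pool.Agent.MP_3ce0a0_al.H79 Pool.Agent.MP_3ce0a0_al.Q2T15 Filter

namespace RKI

variable {α : Type}

theorem multi_mem {I J : Set α} (h : I ⊆ J) {β : Par α} (hβ : ∀ k, β k ∈ std I)
    {w : FreeGroup α} (hw : w ∈ std J) : multi I β w ∈ std J := by
  refine aut_mem_std (fun y hy => ?_) hw
  by_cases hI : y ∈ I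
  · rw [multi_of_mem β hI]
    exact of_mem_std hy
  · rw [multi_of_std hβ hI]
    exact mul_mem (mul_mem (inv_mem (std_mono h (hβ _))) (of_mem_std hy)) (std_mono h (hβ _))

theorem multi_mem_iff {I J : Set α} (h : I ⊆ J) {β : Par α} (hβ : ∀ k, β k ∈ std I)
    (w : FreeGroup α) : multi I β w ∈ std J ↔ w ∈ std J := by
  refine ⟨fun hw => ?_, multi_mem h hβ⟩
  have h1 := multi_mem h (β := β⁻¹) (fun k => inv_mem (hβ k)) hw
  rwa [map_inv, MulAut.inv_apply_self] at h1

theorem multi_letter {I L : Finset α} (hd : Disjoint I L) {Λ : Subgroup (FreeGroup α)}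
    {β : Par α} (hβ : InK I L Λ β) (z : α) :
    multi (I : Set α) β (FreeGroup.of z) = (β (z, false))⁻¹ * FreeGroup.of z * β (z, true) := by
  by_cases hz : z ∈ I
  · have h1 : z ∉ L := Finset.disjoint_left.1 hd hz
    rw [multi_of_mem β (Finset.mem_coe.2 hz), (hβ (z, false)).2.2 h1, (hβ (z, true)).2.2 h1,
      inv_one, one_mul, mul_one]
  · exact multi_of_std (fun k => (hβ k).2.1) (fun e => hz (Finset.mem_coe.1 e))

theorem hom_conj {G F : Type} [Group G] [Group F] {H : Subgroup G} {f : G → F}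
    (hf : ∀ u ∈ H, ∀ v ∈ H, f (u * v) = f u * f v) {u m : G} (hu : u ∈ H) (hm : m ∈ H) :
    f (u⁻¹ * m * u) = (f u)⁻¹ * f m * f u ∧ f (u * m * u⁻¹) = f u * f m * (f u)⁻¹ := by
  constructor
  · have e := hf u hu _ (mul_mem (mul_mem (inv_mem hu) hm) hu)
    rw [show u * (u⁻¹ * m * u) = m * u by group, hf m hm u hu] at e
    rw [mul_assoc (f u)⁻¹, e, inv_mul_cancel_left]
  · have e := hf _ (mul_mem (mul_mem hu hm) (inv_mem hu)) u hu
    rw [inv_mul_cancel_right, hf u hu m hm] at e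
    rw [e, mul_inv_cancel_right]

variable {F : Type} [Group F] {ρ : Out (FreeGroup α) →* Out F}
  {P : Finset α → (FreeGroup α → F) → Prop}

/-- The section acts on the larger factor as the multitwist. -/
theorem equivar (h : PortSys ρ P) {I J L : Finset α} (hI : Ok I) (hJ : Ok J) (hIJ : I ⊆ J)
    (hd : Disjoint I L) {x : α} (hxJ : x ∉ J) (hxL : x ∉ L) {f : FreeGroup α → F} (hf : P J f)
    {Λ : Subgroup (FreeGroup α)} {β : Par α} (hβ : InK I L Λ β) {a : MulAut F}
    (ha : IsSig ρ I f β a) : ∀ᶠ w in deep J, a (f w) = f (multi (I : Set α) β w) := by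
  have hs : ∀ k, β k ∈ std (I : Set α) := fun k => (hβ k).2.1
  have hIJ' : (I : Set α) ⊆ J := Finset.coe_subset.2 hIJ
  have h1 : multi (I : Set α) β ∈ NA ({x}ᶜ : Set α) := by
    refine ⟨fun y hy => ?_, multi_mem_iff
      (Set.subset_compl_singleton_iff.2 fun e => hxJ (hIJ (Finset.mem_coe.1 e))) hs⟩
    have e : y = x := by simpa using hy
    rw [e, multi_letter hd hβ, (hβ (x, false)).2.2 hxL, (hβ (x, true)).2.2 hxL, inv_one, one_mul,
      mul_one]
  have h2 := h.aut J f x _ a hJ hf hxJ h1 (multi_mem_iff hIJ' hs) ha.1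
  have h3 := h.inj I J _ f hI hJ hIJ h2 hf ((ha.2.and (ev_std I)).mono fun w hw => by
    show a (f ((multi (I : Set α) β)⁻¹ w)) = f w
    rw [← map_inv, multi_std _ hw.2, hw.1])
  refine ((tendsto_aut _ fun w hw => multi_mem hIJ' hs hw).eventually h3).mono fun w hw => ?_
  have e : a (f ((multi (I : Set α) β)⁻¹ (multi (I : Set α) β w))) = f (multi (I : Set α) β w) := hw
  rwa [MulAut.inv_apply_self] at e

end RKI

open RKI in
theorem rowKI : StmtKI := by
  classical
  intro α F _ _ ρ P A hc h I L π z hch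
  have hI : Ok I := hch.ok
  have hIJ : I ⊆ insert z I := Finset.subset_insert z I
  have c1 := Finset.card_insert_le z I
  have c2 := hch.2.1
  have c3 := hch.2.2.1
  have hJ : Ok (insert z I) := ⟨hI.1.trans (Finset.card_le_card hIJ), by omega⟩
  obtain ⟨x, hx⟩ := exists_notMem (S := insert z I ∪ L) (by
    have := Finset.card_union_le (insert z I) L
    omega)
  rw [Finset.mem_union, not_or] at hx
  have hz : FreeGroup.of z ∈ std ((insert z I : Finset α) : Set α) :=
    of_mem_std (Finset.mem_coe.2 (Finset.mem_insert_self z I))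
  obtain ⟨Λ, hΛ, hm⟩ := h.hom _ _ hJ (A.mem π _ hJ)
  have hm' : ∀ u ∈ Λ ⊓ std ((insert z I : Finset α) : Set α),
      ∀ v ∈ Λ ⊓ std ((insert z I : Finset α) : Set α), A.rep π (u * v) = A.rep π u * A.rep π v :=
    fun u hu v hv => hm u hu.1 v hv.1 hu.2 hv.2
  have E : ∀ᶠ w in deep I, (FreeGroup.of z)⁻¹ * w * FreeGroup.of z ∈
      Λ ⊓ std ((insert z I : Finset α) : Set α) ∧ A.rep (A.r (FreeGroup.of z) π) w =
        A.rep π ((FreeGroup.of z)⁻¹ * w * FreeGroup.of z) :=
    (((tendsto_conj hz).eventually ((ev_mem _ Λ).and (ev_std _))).and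
      (A.r_rep _ π _ hJ hz)).filter_mono (deep_mono hIJ)
  filter_upwards [h.ev_isSig hch (A.mem π I hI), evK I L Λ,
    (tendsto_coord I L (z, false)).eventually E] with β ha hβ h1
  have K := ((tendsto_conj hz).eventually (equivar h hI hJ hIJ hch.2.2.2 hx.1 hx.2 (A.mem π _ hJ)
    hβ ha)).filter_mono (deep_mono hIJ)
  have b2 : β (z, true) ∈ Λ ⊓ std ((insert z I : Finset α) : Set α) :=
    ⟨(hβ _).1, std_mono (Finset.coe_subset.2 hIJ) (hβ _).2.1⟩
  have hs : IsSig ρ I (A.rep (A.r (FreeGroup.of z) π)) β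
      (MulAut.conj (A.rep (A.r (FreeGroup.of z) π) (β (z, false)))⁻¹ *
        (MulAut.conj (A.rep π (β (z, true))) * sig ρ I (A.rep π) β)) := by
    refine ⟨(ha.1.conj_mul _).conj_mul _, ?_⟩
    filter_upwards [E, K, ev_std I] with w e1 e2 e3
    have e4 : multi (I : Set α) β ((FreeGroup.of z)⁻¹ * w * FreeGroup.of z) =
        (β (z, true))⁻¹ * ((FreeGroup.of z)⁻¹ * β (z, false) * FreeGroup.of z *
          ((FreeGroup.of z)⁻¹ * w * FreeGroup.of z) *
          ((FreeGroup.of z)⁻¹ * β (z, false) * FreeGroup.of z)⁻¹) * β (z, true) := by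
      rw [map_mul, map_mul, map_inv, multi_letter hch.2.2.2 hβ, multi_std _ e3]
      group
    rw [MulAut.mul_apply, MulAut.mul_apply, e1.2, e2, e4,
      (hom_conj hm' b2 (mul_mem (mul_mem h1.1 e1.1) (inv_mem h1.1))).1,
      (hom_conj hm' h1.1 e1.1).2, h1.2, MulAut.conj_apply, MulAut.conj_apply]
    group
  unfold tv
  rw [hs.eq_sig fun u => h.free I _ u hI (A.mem _ I hI), map_inv, mul_inv_cancel_left]

end Pool.Agent.MP_3ce0a0_al.Q2T14
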