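import Pool.Agent.MP_3ce0a0_al.Q2T14.Basic

/-! Block T14, row ORBIT: the action on the families is free and transitive. -/

set_option autoImplicit false

namespace Pool.Agent.MP_3ce0a0_al.Q2T14

namespace ROrbit

variable {F Φ α : Type} [Group F] {l : F →* Equiv.Perm Φ} {r : FreeGroup α →* Equiv.Perm Φ}
  {s : Wall Φ α → Node Φ α → Prop}

/-- `x` and `y` are the two ends of the wall `ω`. -/
def Cr (r : FreeGroup α →* Equiv.Perm Φ) (ω : Wall Φ α) (x y : Node Φ α) : Prop :=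
  (x = near ω ∧ y = far r ω) ∨ (x = far r ω ∧ y = near ω)

theorem Cr.symm {ω : Wall Φ α} {x y : Node Φ α} (h : Cr r ω x y) : Cr r ω y x :=
  (Or.symm h).imp And.symm And.symm

theorem near_ne (ω : Wall Φ α) : near ω ≠ far r ω := by
  obtain ⟨π, y, _ | _⟩ := ω <;> simp [near, far]

theorem Cr.back {ω : Wall Φ α} {x y z : Node Φ α} (h : Cr r ω x y) (h' : Cr r ω y z) : z = x := by
  rcases h with ⟨h1, h2⟩ | ⟨h1, h2⟩ <;> rcases h' with ⟨h3, h4⟩ | ⟨h3, h4⟩
  · exact absurd (h3.symm.trans h2) (near_ne ω)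
  · rw [h1, h4]
  · rw [h1, h4]
  · exact absurd (h2.symm.trans h3) (near_ne ω)

theorem Cr.sep (S : Side l r s) {ω : Wall Φ α} {x y : Node Φ α} (h : Cr r ω x y) :
    ¬ (s ω x ↔ s ω y) := by
  have h1 := S.s_near ω
  have h2 := S.s_far ω
  rcases h with ⟨rfl, rfl⟩ | ⟨rfl, rfl⟩ <;> tauto

theorem Cr.iff_near (S : Side l r s) {ω ω' : Wall Φ α} {x y : Node Φ α} (h : Cr r ω x y)
    (hne : ω' ≠ ω) : s ω' x ↔ s ω' (near ω) := by
  rcases h with ⟨rfl, rfl⟩ | ⟨rfl, rfl⟩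
  · rfl
  · exact (S.other _ _ hne).symm

theorem Cr.same (S : Side l r s) {ω ω' : Wall Φ α} {x y : Node Φ α} (h : Cr r ω x y)
    (hne : ω' ≠ ω) : s ω' x ↔ s ω' y := (h.iff_near S hne).trans (h.symm.iff_near S hne).symm

theorem exists_cr (S : Side l r s) (ω : Wall Φ α) (a : Node Φ α) :
    ∃ x y, Cr r ω x y ∧ (s ω a ↔ s ω x) := by
  by_cases h : s ω a
  · exact ⟨_, _, Or.inl ⟨rfl, rfl⟩, iff_of_true h (S.s_near ω)⟩
  · exact ⟨_, _, Or.inr ⟨rfl, rfl⟩, iff_of_false h (S.s_far ω)⟩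

/-- Reduced walks with given first wall. -/
inductive RW (r : FreeGroup α →* Equiv.Perm Φ) (a : Node Φ α) : Node Φ α → Wall Φ α → Prop
  | one {x ω} : Cr r ω x a → RW r a x ω
  | cons {x y ω ω'} : Cr r ω x y → RW r a y ω' → ω ≠ ω' → RW r a x ω

theorem RW.cr {a x : Node Φ α} {ω : Wall Φ α} (h : RW r a x ω) : ∃ y, Cr r ω x y := by
  cases h with
  | one h => exact ⟨_, h⟩
  | cons h _ _ => exact ⟨_, h⟩

theorem RW.sep (S : Side l r s) {a x : Node Φ α} {ω : Wall Φ α} (h : RW r a x ω) :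
    ¬ (s ω a ↔ s ω x) := by
  induction h with
  | one h => exact h.symm.sep S
  | @cons x y ω ω' h h' hne ih =>
    obtain ⟨z, hz⟩ := h'.cr
    have h1 := S.nest ω ω' a hne (by rwa [← h.symm.iff_near S hne.symm])
    rw [h1, ← hz.iff_near S hne]
    exact h.symm.sep S

/-- Joined by a walk. -/
def Cn (r : FreeGroup α →* Equiv.Perm Φ) : Node Φ α → Node Φ α → Prop :=
  Relation.ReflTransGen fun x y => ∃ ω, Cr r ω x y

theorem Cr.cn {ω : Wall Φ α} {x y : Node Φ α} (h : Cr r ω x y) : Cn r x y :=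
  Relation.ReflTransGen.single ⟨ω, h⟩

theorem Cn.symm {x y : Node Φ α} (h : Cn r x y) : Cn r y x := by
  induction h with
  | refl => exact Relation.ReflTransGen.refl
  | tail _ h ih => exact Relation.ReflTransGen.head (h.imp fun _ => Cr.symm) ih

theorem Cn.red {x a : Node Φ α} (h : Cn r x a) : x = a ∨ ∃ ω, RW r a x ω := by
  induction h using Relation.ReflTransGen.head_induction_on with
  | refl => exact Or.inl rfl
  | head h _ ih =>
    obtain ⟨ω, h⟩ := h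
    rcases ih with rfl | ⟨ω', h'⟩
    · exact Or.inr ⟨ω, RW.one h⟩
    by_cases e : ω = ω'
    · subst e
      cases h' with
      | one h1 => exact Or.inl (h.back h1).symm
      | cons h1 h2 _ => exact Or.inr ⟨_, h.back h1 ▸ h2⟩
    · exact Or.inr ⟨ω, RW.cons h h' e⟩

theorem Cn.orb {x y : Node Φ α} (h : Cn r x y) : ∃ t, r t x.1 = y.1 := by
  have k : ∀ ω : Wall Φ α, ∃ t, r t (near ω).1 = (far r ω).1 := by
    rintro ⟨π, y, _ | _⟩
    · exact ⟨1, by simp [near, far]⟩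
    · exact ⟨FreeGroup.of y, rfl⟩
  induction h with
  | refl => exact ⟨1, by simp⟩
  | tail _ h ih =>
    obtain ⟨t, ht⟩ := ih
    obtain ⟨ω, ⟨rfl, rfl⟩ | ⟨rfl, rfl⟩⟩ := h
    · obtain ⟨u, hu⟩ := k ω
      exact ⟨u * t, by rw [map_mul, Equiv.Perm.mul_apply, ht, hu]⟩
    · obtain ⟨u, hu⟩ := k ω
      exact ⟨u⁻¹ * t, by rw [map_mul, Equiv.Perm.mul_apply, ht, ← hu, map_inv]; simp⟩

theorem two (r : FreeGroup α →* Equiv.Perm Φ) (x : α × Bool) (σ : Φ) :
    ∃ m, Cr r (r (FreeGroup.mk [x]) σ, (x.1, !x.2)) (r (FreeGroup.mk [x]) σ, none) m ∧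
      Cr r (σ, x) m (σ, none) := by
  obtain ⟨y, _ | _⟩ := x
  · refine ⟨(σ, some y), Or.inl ⟨rfl, ?_⟩, Or.inr ⟨rfl, rfl⟩⟩
    have e : FreeGroup.mk [(y, false)] = (FreeGroup.of y)⁻¹ := rfl
    simp [far, e]
  · exact ⟨_, Or.inl ⟨rfl, rfl⟩, Or.inr ⟨rfl, rfl⟩⟩

theorem r_cons (x : α × Bool) (L : List (α × Bool)) (π : Φ) :
    r (FreeGroup.mk (x :: L)) π = r (FreeGroup.mk [x]) (r (FreeGroup.mk L) π) := by
  rw [← Equiv.Perm.mul_apply, ← map_mul, FreeGroup.mul_mk]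
  rfl

theorem rw_word (π : Φ) (L : List (α × Bool)) : ∀ x, FreeGroup.IsReduced (x :: L) →
    RW r (π, none) (r (FreeGroup.mk (x :: L)) π, none)
      (r (FreeGroup.mk (x :: L)) π, (x.1, !x.2)) := by
  have k : ∀ (x : α × Bool) (σ σ' : Φ), ((σ', (x.1, !x.2)) : Wall Φ α) ≠ (σ, x) := by
    rintro ⟨y, _ | _⟩ σ σ' <;> simp
  induction L with
  | nil =>
    intro x _
    obtain ⟨m, h1, h2⟩ := two r x π
    exact RW.cons h1 (RW.one h2) (k _ _ _)
  | cons x' L ih =>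
    intro x h
    rw [FreeGroup.isReduced_cons_cons] at h
    obtain ⟨m, h1, h2⟩ := two r x (r (FreeGroup.mk (x' :: L)) π)
    rw [r_cons]
    refine RW.cons h1 (RW.cons h2 (ih x' h.2) fun e => ?_) (k _ _ _)
    have e1 := (Prod.mk.inj e).2
    have e2 := h.1 (congrArg Prod.fst e1 : x.1 = (x'.1, !x'.2).1)
    have e3 : x.2 = !x'.2 := congrArg Prod.snd e1
    rw [e2] at e3
    simp at e3

theorem free (S : Side l r s) (t : FreeGroup α) (π : Φ) (h : r t π = π) : t = 1 := by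
  classical
  have h1 := FreeGroup.isReduced_toWord (x := t)
  have h2 := FreeGroup.mk_toWord (x := t)
  cases hL : t.toWord with
  | nil => exact FreeGroup.toWord_eq_nil_iff.1 hL
  | cons x L =>
    rw [hL] at h1 h2
    have h3 := (rw_word (r := r) π L x h1).sep S
    rw [h2, h] at h3
    exact absurd Iff.rfl h3

theorem cn_word (π : Φ) (L : List (α × Bool)) :
    Cn r (r (FreeGroup.mk L) π, none) (π, none) := by
  induction L with
  | nil =>
    rw [← FreeGroup.one_eq_mk, map_one]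
    exact Relation.ReflTransGen.refl
  | cons x L ih =>
    obtain ⟨m, h1, h2⟩ := two r x (r (FreeGroup.mk L) π)
    rw [r_cons]
    exact (h1.cn.trans h2.cn).trans ih

theorem cn_none (a : Node Φ α) : Cn r a (a.1, none) := by
  obtain ⟨π, _ | y⟩ := a
  · exact Relation.ReflTransGen.refl
  · exact Cr.cn (ω := (π, (y, false))) (Or.inr ⟨rfl, rfl⟩)

theorem cn_orb (a : Node Φ α) (t : FreeGroup α) : Cn r a (r t a.1, a.2) := by
  obtain ⟨L⟩ := t
  exact ((cn_none a).trans (cn_word a.1 L).symm).trans (cn_none (r (FreeGroup.mk L) a.1, a.2)).symm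

theorem Cn.cross (S : Side l r s) {ω : Wall Φ α} {x y : Node Φ α} (h : Cn r x y)
    (hs : ¬ (s ω x ↔ s ω y)) : Cn r x (near ω) := by
  induction h with
  | refl => exact absurd Iff.rfl hs
  | @tail p q h1 h2 ih =>
    obtain ⟨ω', h2⟩ := h2
    by_cases e : ω = ω'
    · subst e
      rcases id h2 with ⟨rfl, -⟩ | ⟨-, rfl⟩
      · exact h1
      · exact h1.trans h2.cn
    · exact ih (by rwa [h2.same S e])

theorem eq_of_unsep (S : Side l r s) {a b : Node Φ α} (h : ∀ ω, s ω a ↔ s ω b) : a = b := by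
  obtain ⟨u, c, t, hc, h1, h2⟩ := S.tr a b h
  have h3 := S.inv u a b h
  rw [h1, h2] at h3
  rcases (cn_orb (r := r) a c).red with e | ⟨ω, hω⟩
  · exact absurd (free S c a.1 (congrArg Prod.fst e).symm) hc
  have h4 := hω.sep S
  have h5 := (cn_orb a c).cross S fun e => h4 e.symm
  rw [h3, h] at h4
  have h6 := (cn_orb b t).cross S fun e => h4 e.symm
  rcases Cn.red (h5.trans h6.symm) with e | ⟨ω', hω'⟩
  · exact e
  · exact absurd (h ω').symm (hω'.sep S)

theorem nest' (S : Side l r s) {ω ω' : Wall Φ α} {x y a b : Node Φ α} (h : Cr r ω x y)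
    (hne : ω ≠ ω') (h1 : ¬ (s ω a ↔ s ω b)) (h2 : ¬ (s ω' a ↔ s ω' x)) : ¬ (s ω' a ↔ s ω' b) := by
  intro e
  rw [h.iff_near S hne.symm] at h2
  exact h1 ((S.nest ω ω' a hne h2).trans (S.nest ω ω' b hne (by rwa [← e])).symm)

theorem first (S : Side l r s) (a b : Node Φ α) (n : ℕ) : ∀ ω x y, Cr r ω x y →
    (s ω a ↔ s ω x) → ¬ (s ω a ↔ s ω b) → {ω | ¬ (s ω a ↔ s ω x)}.ncard = n →
      ∃ ω y, Cr r ω a y ∧ ¬ (s ω a ↔ s ω b) := by
  induction n using Nat.strong_induction_on with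
  | _ n ih =>
    intro ω x y h h1 h2 hn
    by_cases e : ∀ ω, s ω a ↔ s ω x
    · exact ⟨ω, y, eq_of_unsep S e ▸ h, h2⟩
    obtain ⟨ω', e⟩ := not_forall.1 e
    obtain ⟨x', y', h', h3⟩ := exists_cr S ω' a
    refine ih _ ?_ ω' x' y' h' h3 (nest' S h (fun e' => e (e' ▸ h1)) h2 e) rfl
    rw [← hn]
    refine Set.ncard_lt_ncard ⟨fun ω'' k => ?_, fun k => k e h3⟩ (S.fin a x)
    exact nest' S h' (fun e' => k (e' ▸ h3)) e k

theorem cn_all (S : Side l r s) (b : Node Φ α) (n : ℕ) :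
    ∀ a, {ω | ¬ (s ω a ↔ s ω b)}.ncard = n → Cn r a b := by
  induction n using Nat.strong_induction_on with
  | _ n ih =>
    intro a hn
    by_cases e : ∀ ω, s ω a ↔ s ω b
    · rw [eq_of_unsep S e]
      exact Relation.ReflTransGen.refl
    obtain ⟨ω, e⟩ := not_forall.1 e
    obtain ⟨x, y, h, h1⟩ := exists_cr S ω a
    obtain ⟨ω', z, h2, h3⟩ := first S a b _ ω x y h h1 e rfl
    have h4 : s ω' z ↔ s ω' b := by
      have := h2.sep S
      tauto
    refine h2.cn.trans (ih _ ?_ z rfl)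
    rw [← hn]
    refine Set.ncard_lt_ncard ⟨fun ω'' k => ?_, fun k => k h3 h4⟩ (S.fin a b)
    have h5 : ω'' ≠ ω' := fun e' => k (e' ▸ h4)
    exact fun e' => k ((h2.same S h5).symm.trans e')

end ROrbit

theorem rowOrbit : StmtOrbit := fun _ _ _ _ _ _ _ S =>
  ⟨ROrbit.free S, fun π π' => (ROrbit.cn_all S (π', none) _ (π, none) rfl).orb⟩

end Pool.Agent.MP_3ce0a0_al.Q2T14
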