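import Pool.Agent.MP_3ce0a0_al.Q2T14.Basic

/-! Block T14: the sides of the walls. -/

set_option autoImplicit false

namespace Pool.Agent.MP_3ce0a0_al.Q2T14

namespace RSide

variable {F Φ α : Type} [Group F] {r : FreeGroup α →* Equiv.Perm Φ}

section Gen

variable {R R' : Node Φ α → Node Φ α → Prop} {A A' : Set (Wall Φ α)} {a b : Node Φ α}

theorem jn_eqv : Equivalence (Jn r R A) := Relation.EqvGen.is_equivalence _

theorem jn_rel (h : R a b) : Jn r R A a b := Relation.EqvGen.rel _ _ (Or.inl h)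

theorem jn_wall {ω : Wall Φ α} (h : ω ∈ A) : Jn r R A (near ω) (far r ω) :=
  Relation.EqvGen.rel _ _ (Or.inr ⟨ω, h, rfl, rfl⟩)

theorem jn_le {T : Node Φ α → Node Φ α → Prop} (hT : Equivalence T) (h1 : ∀ a b, R a b → T a b)
    (h2 : ∀ ω ∈ A, T (near ω) (far r ω)) (h : Jn r R A a b) : T a b := by
  induction h with
  | rel x y h =>
    rcases h with h | ⟨ω, hω, rfl, rfl⟩
    · exact h1 _ _ h
    · exact h2 ω hω
  | refl x => exact hT.refl x
  | symm x y _ ih => exact hT.symm ih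
  | trans x y z _ _ ih ih' => exact hT.trans ih ih'

theorem jn_mono (h1 : ∀ a b, R a b → R' a b) (h2 : A ⊆ A') (h : Jn r R A a b) : Jn r R' A' a b :=
  jn_le jn_eqv (fun a b h => jn_rel (h1 a b h)) (fun _ h => jn_wall (h2 h)) h

theorem jn_sub (h2 : A ⊆ A') (h : Jn r R A a b) : Jn r R A' a b := jn_mono (fun _ _ h => h) h2 h

theorem jn_iff (h : Jn r R A a b) (c : Node Φ α) : Jn r R A c a ↔ Jn r R A c b :=
  ⟨fun k => jn_eqv.trans k h, fun k => jn_eqv.trans k (jn_eqv.symm h)⟩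

/-- Every node is joined outside `E` to an end of a wall of `E`. -/
theorem ends (hc : ∀ a b, Jn r R Set.univ a b) {E : Set (Wall Φ α)} {ω₀ : Wall Φ α} (h₀ : ω₀ ∈ E)
    (a : Node Φ α) : ∃ ω ∈ E, Jn r R Eᶜ (near ω) a ∨ Jn r R Eᶜ (far r ω) a := by
  let P : Node Φ α → Prop := fun a => ∃ ω ∈ E, Jn r R Eᶜ (near ω) a ∨ Jn r R Eᶜ (far r ω) a
  have hP : ∀ a b, Jn r R Eᶜ a b → (P a ↔ P b) := fun a b h =>
    exists_congr fun ω => and_congr_right fun _ => or_congr (jn_iff h _) (jn_iff h _)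
  have h := jn_le (T := fun a b => P a ↔ P b) ⟨fun _ => Iff.rfl, Iff.symm, Iff.trans⟩
    (fun a b h => hP a b (jn_rel h)) (fun ω _ => by
      by_cases hω : ω ∈ E
      · exact iff_of_true ⟨ω, hω, Or.inl (jn_eqv.refl _)⟩ ⟨ω, hω, Or.inr (jn_eqv.refl _)⟩
      · exact hP _ _ (jn_wall hω)) (hc (near ω₀) a)
  exact h.1 ⟨ω₀, h₀, Or.inl (jn_eqv.refl _)⟩

theorem ins {e : Wall Φ α} (h : Jn r R (insert e A) a b) : Jn r R A a b ∨
    (Jn r R A (near e) a ∧ Jn r R A (far r e) b) ∨ (Jn r R A (far r e) a ∧ Jn r R A (near e) b) := by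
  let Q : Node Φ α → Prop := fun a => Jn r R A (near e) a ∨ Jn r R A (far r e) a
  have hQ : ∀ a b, Jn r R A a b → (Q a ↔ Q b) := fun a b h => or_congr (jn_iff h _) (jn_iff h _)
  have h1 := jn_le (T := fun a b => Jn r R A a b ∨ (Q a ∧ Q b))
    ⟨fun _ => Or.inl (jn_eqv.refl _), fun h => h.imp jn_eqv.symm And.symm, by
      rintro x y z (h | h) (k | k)
      · exact Or.inl (jn_eqv.trans h k)
      · exact Or.inr ⟨(hQ _ _ h).2 k.1, k.2⟩
      · exact Or.inr ⟨h.1, (hQ _ _ k).1 h.2⟩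
      · exact Or.inr ⟨h.1, k.2⟩⟩
    (fun a b h => Or.inl (jn_rel h)) (fun ω hω => by
      rcases hω with rfl | hω
      · exact Or.inr ⟨Or.inl (jn_eqv.refl _), Or.inr (jn_eqv.refl _)⟩
      · exact Or.inl (jn_wall hω)) h
  rcases h1 with h1 | ⟨h1 | h1, h2 | h2⟩
  · exact Or.inl h1
  · exact Or.inl (jn_eqv.trans (jn_eqv.symm h1) h2)
  · exact Or.inr (Or.inl ⟨h1, h2⟩)
  · exact Or.inr (Or.inr ⟨h1, h2⟩)
  · exact Or.inl (jn_eqv.trans (jn_eqv.symm h1) h2)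

theorem fin_walls (h : Jn r R A a b) : ∃ E : Set (Wall Φ α), E.Finite ∧ Jn r R E a b :=
  jn_le (T := fun a b => ∃ E : Set (Wall Φ α), E.Finite ∧ Jn r R E a b)
    ⟨fun _ => ⟨∅, Set.finite_empty, jn_eqv.refl _⟩, fun ⟨E, h1, h2⟩ => ⟨E, h1, jn_eqv.symm h2⟩,
      fun ⟨E, h1, h2⟩ ⟨E', h3, h4⟩ => ⟨E ∪ E', h1.union h3,
        jn_eqv.trans (jn_sub Set.subset_union_left h2) (jn_sub Set.subset_union_right h4)⟩⟩
    (fun _ _ h => ⟨∅, Set.finite_empty, jn_rel h⟩)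
    (fun ω _ => ⟨{ω}, Set.finite_singleton ω, jn_wall rfl⟩) h

end Gen

variable {l : F →* Equiv.Perm Φ} {R : Finset α → Finset α → Node Φ α → Node Φ α → Prop}

theorem restrict (c : Charts l r R) {J I L : Finset α} {ω : Wall Φ α} (hJ : Ch J {ω.2.1})
    (hI : Ch I L) (h : J ⊆ I) (hy : ω.2.1 ∈ L) (a : Node Φ α) :
    Jn r (R J {ω.2.1}) {ω}ᶜ (near ω) a ↔ Jn r (R I L) {ω}ᶜ (near ω) a := by
  have hm : ∀ x y, Jn r (R I L) {ω}ᶜ x y → Jn r (R J {ω.2.1}) {ω}ᶜ x y := fun x y =>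
    jn_mono (fun a b => c.mono J _ I L a b hJ hI h (Finset.singleton_subset_iff.2 hy)) subset_rfl
  refine ⟨fun k => ?_, hm _ _⟩
  obtain ⟨ω', rfl, h1 | h1⟩ := ends (fun a b => c.conn I L a b hI) (Set.mem_singleton ω) a
  · exact h1
  · exact (c.acyc J _ hJ (jn_eqv.trans k (jn_eqv.symm (hm _ _ h1)))).elim

variable (r R) in
/-- The near side of a wall. -/
def sd (ω : Wall Φ α) (a : Node Φ α) : Prop :=
  ∀ I, Ch I {ω.2.1} → Jn r (R I {ω.2.1}) {ω}ᶜ (near ω) a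

theorem sd_iff (c : Charts l r R) {I L : Finset α} {ω : Wall Φ α} (hI : Ch I L) (hy : ω.2.1 ∈ L)
    (a : Node Φ α) : sd r R ω a ↔ Jn r (R I L) {ω}ᶜ (near ω) a := by
  have h1 : Ch I {ω.2.1} := hI.mono (Finset.singleton_subset_iff.2 hy)
  rw [← restrict c h1 hI subset_rfl hy]
  refine ⟨fun h => h I h1, fun h J hJ => ?_⟩
  refine swap 4 le_rfl ∅ {ω.2.1} (fun I => Jn r (R I {ω.2.1}) {ω}ᶜ (near ω) a) ?_ h1.1 h1.2.1
    (Finset.empty_subset _) h1.2.2.2 hJ.1 hJ.2.1 (Finset.empty_subset _) hJ.2.2.2 h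
  intro K M k1 k2 k3 _ k4
  have k5 := Finset.card_le_card k3
  exact restrict c ⟨k1, k5.trans k2, h1.2.2.1, k4.mono_left k3⟩ ⟨k1.trans k5, k2, h1.2.2.1, k4⟩ k3
    (Finset.mem_singleton_self _) a

theorem sd_congr (c : Charts l r R) {I L : Finset α} {ω : Wall Φ α} (hI : Ch I L)
    (hy : ω.2.1 ∈ L) {a b : Node Φ α} (h : Jn r (R I L) {ω}ᶜ a b) : sd r R ω a ↔ sd r R ω b := by
  rw [sd_iff c hI hy, sd_iff c hI hy]
  exact jn_iff h _

theorem chart [Finite α] (h8 : 8 ≤ Nat.card α) {L : Finset α} (hL : L.card ≤ 2) : ∃ I, Ch I L := by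
  obtain ⟨I, h1, -, h2⟩ := exists_set (A := ∅) (Z := L) (k := 3) (Finset.disjoint_empty_left _)
    (Nat.zero_le _) (by omega)
  exact ⟨I, h1.ge, by omega, hL, h2⟩

/-- Nodes that are not separated by a wall are equal in every chart. -/
theorem unsep (c : Charts l r R) {I : Finset α} {z : α} (hI : Ch I {z}) {a b : Node Φ α}
    (h : ∀ ω, sd r R ω a ↔ sd r R ω b) : R I {z} a b := by
  obtain ⟨E, hE, h1⟩ := fin_walls (c.conn I {z} a b hI)
  induction E, hE using Set.Finite.induction_on with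
  | empty => exact jn_le (c.equiv I {z}) (fun _ _ h => h) (fun _ h => h.elim) h1
  | @insert e E he _ ih =>
    refine ih ?_
    rcases ins h1 with h2 | h2
    · exact h2
    by_cases hz : e.2.1 ∈ ({z} : Finset α)
    · exfalso
      have hs : E ⊆ {e}ᶜ := fun x hx k => he (by rwa [Set.mem_singleton_iff.1 k] at hx)
      have h3 := h e
      rw [sd_iff c hI hz, sd_iff c hI hz] at h3
      obtain rfl := Finset.mem_singleton.1 hz
      refine c.acyc I e hI ?_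
      rcases h2 with h2 | h2
      · exact jn_eqv.trans (h3.1 (jn_sub hs h2.1)) (jn_eqv.symm (jn_sub hs h2.2))
      · exact jn_eqv.trans (h3.2 (jn_sub hs h2.2)) (jn_eqv.symm (jn_sub hs h2.1))
    · have h3 : Jn r (R I {z}) E (near e) (far r e) := jn_rel (c.loop I {z} e hI hz)
      rcases h2 with h2 | h2
      · exact jn_eqv.trans (jn_eqv.symm h2.1) (jn_eqv.trans h3 h2.2)
      · exact jn_eqv.trans (jn_eqv.symm h2.1) (jn_eqv.trans (jn_eqv.symm h3) h2.2)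

end RSide

open RSide

theorem rowSide : StmtSide := by
  intro F Φ α _ _ l r R h8 _ c hT
  classical
  have h1 : ∀ z : α, ∃ I, Ch I {z} := fun z => chart h8 (by simp)
  refine ⟨sd r R, fun ω _ _ => jn_eqv.refl _, fun ω h => ?_, fun ω ω' hne => ?_, fun a b => ?_,
    fun ω ω' a hne h => ?_, fun u a b h ω => ?_, fun a b h => hT a b fun I z hI => unsep c hI h⟩
  · obtain ⟨I, hI⟩ := h1 ω.2.1
    exact c.acyc I ω hI (h I hI)
  · obtain ⟨I, hI⟩ := h1 ω.2.1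
    exact sd_congr c hI (Finset.mem_singleton_self _) (jn_wall hne.symm)
  · choose I hI using h1
    choose E hE hJ using fun z => fin_walls (c.conn (I z) {z} a b (hI z))
    refine (Set.finite_iUnion hE).subset fun ω hω => ?_
    by_contra hn
    refine hω (sd_congr c (hI ω.2.1) (Finset.mem_singleton_self _) (jn_sub ?_ (hJ _)))
    intro x hx k
    exact hn (Set.mem_iUnion.2 ⟨ω.2.1, by rwa [Set.mem_singleton_iff.1 k] at hx⟩)
  · obtain ⟨I, hI⟩ := chart h8 (L := {ω.2.1, ω'.2.1}) Finset.card_le_two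
    have m1 : ω.2.1 ∈ ({ω.2.1, ω'.2.1} : Finset α) := by simp
    have m2 : ω'.2.1 ∈ ({ω.2.1, ω'.2.1} : Finset α) := by simp
    have s1 : ({ω, ω'} : Set (Wall Φ α))ᶜ ⊆ {ω}ᶜ := fun x hx k => hx (Or.inl k)
    have s2 : ({ω, ω'} : Set (Wall Φ α))ᶜ ⊆ {ω'}ᶜ := fun x hx k => hx (Or.inr k)
    obtain ⟨e, he, h2⟩ := ends (fun a b => c.conn I _ a b hI) (E := {ω, ω'}) (Or.inl rfl) a
    rcases he with rfl | rfl
    · refine (h (sd_congr c hI m2 (jn_eqv.symm ?_))).elim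
      rcases h2 with h2 | h2
      · exact jn_sub s2 h2
      · exact jn_eqv.trans (jn_wall hne) (jn_sub s2 h2)
    · refine sd_congr c hI m1 (jn_eqv.symm ?_)
      rcases h2 with h2 | h2
      · exact jn_sub s1 h2
      · exact jn_eqv.trans (jn_wall hne.symm) (jn_sub s1 h2)
  · obtain ⟨I, hI⟩ := h1 ω.2.1
    exact sd_congr c hI (Finset.mem_singleton_self _) (jn_rel (c.inv I _ u a b hI (unsep c hI h)))

end Pool.Agent.MP_3ce0a0_al.Q2T14
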