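import Pool.Agent.MP_3ce0a0_al.Q2T14.Basic

/-! Row TR: the product of the one-letter twists is inner. -/

set_option autoImplicit false

namespace Pool.Agent.MP_3ce0a0_al.Q2T14

open Pool.Agent.MP_3ce0a0_al.H79 Pool.Agent.MP_3ce0a0_al.Q2T15 Filter

namespace RTr

variable {α F : Type} [Group F] {ρ : Out (FreeGroup α) →* Out F}
  {P : Finset α → (FreeGroup α → F) → Prop}

open Classical in
/-- The parameter with value `c` at the ends of the letters of `Z`. -/
noncomputable def bZ (Z : Finset α) (c : FreeGroup α) : Par α := fun h => if h.1 ∈ Z then c else 1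

theorem bZ_pos {Z : Finset α} (c : FreeGroup α) {h : α × Bool} (hh : h.1 ∈ Z) : bZ Z c h = c :=
  if_pos hh

theorem bZ_neg {Z : Finset α} (c : FreeGroup α) {h : α × Bool} (hh : h.1 ∉ Z) : bZ Z c h = 1 :=
  if_neg hh

theorem bZ_mem {Z : Finset α} {c : FreeGroup α} {S : Subgroup (FreeGroup α)} (hc : c ∈ S)
    (h : α × Bool) : bZ Z c h ∈ S := by
  by_cases hh : h.1 ∈ Z
  · rwa [bZ_pos c hh]
  · rw [bZ_neg c hh]
    exact one_mem _

theorem multi_bZ_pos {S : Set α} {Z : Finset α} {c : FreeGroup α} (hc : c ∈ std S) {x : α}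
    (hx : x ∈ Z) (hS : x ∉ S) :
    multi S (bZ Z c) (FreeGroup.of x) = c⁻¹ * FreeGroup.of x * c := by
  rw [multi_of_std (bZ_mem hc) hS, bZ_pos c (h := (x, false)) hx, bZ_pos c (h := (x, true)) hx]

theorem multi_bZ_neg {S : Set α} {Z : Finset α} {c : FreeGroup α} (hc : c ∈ std S) {x : α}
    (hx : x ∉ Z) : multi S (bZ Z c) (FreeGroup.of x) = FreeGroup.of x := by
  by_cases hS : x ∈ S
  · exact multi_of_mem _ hS
  · rw [multi_of_std (bZ_mem hc) hS, bZ_neg c (h := (x, false)) hx, bZ_neg c (h := (x, true)) hx,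
      inv_one, one_mul, mul_one]

theorem pres1 {y : α} {S : Set α} (hy : y ∈ S) (β : Par α) {w : FreeGroup α} (hw : w ∈ std S) :
    multi {y} β w ∈ std S := by
  refine aut_mem_std (fun x hx => ?_) hw
  have h1 : ∀ b, ret {y} b ∈ std S := fun b =>
    std_mono (Set.singleton_subset_iff.2 hy) (ret_mem _ b)
  by_cases e : x ∈ ({y} : Set α)
  · rw [multi_of_mem _ e]
    exact of_mem_std hx
  · rw [multi_of_not_mem _ e]
    exact mul_mem (mul_mem (inv_mem (h1 _)) (of_mem_std hx)) (h1 _)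

theorem pres2 {y : α} {S : Set α} (hy : y ∈ S) (β : Par α) {w : FreeGroup α} (hw : w ∈ std S) :
    (multi {y} β)⁻¹ w ∈ std S := by
  rw [← map_inv]
  exact pres1 hy _ hw

theorem pres {y : α} {S : Set α} (hy : y ∈ S) (β : Par α) (w : FreeGroup α) :
    multi {y} β w ∈ std S ↔ w ∈ std S :=
  ⟨fun h => by simpa only [MulAut.inv_apply_self] using pres2 hy β h, pres1 hy β⟩

/-- The map `lam` is induced by the twist with parameter `β` and its lift `a`. -/
def Good (ρ : Out (FreeGroup α) →* Out F) (A : Acts P) (y : α) (β : Par α) (a : MulAut F)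
    (lam : A.Φ → A.Φ) : Prop :=
  Lifts ρ (multi {y} β) a ∧ ∀ π I, Ok I → y ∈ I →
    A.rep (lam π) =ᶠ[deep I] fun w => a (A.rep π ((multi {y} β)⁻¹ w))

variable {A : Acts P} {y : α}

theorem td {I : Finset α} (hy : y ∈ I) (β : Par α) :
    Tendsto (fun w => (multi {y} β)⁻¹ w) (deep I) (deep I) :=
  tendsto_aut _ fun _ hw => pres2 (Finset.mem_coe.2 hy) β hw

theorem Good.mul {β γ : Par α} {a b : MulAut F} {l m : A.Φ → A.Φ} (h1 : Good ρ A y β a l)
    (h2 : Good ρ A y γ b m) : Good ρ A y (β * γ) (a * b) fun π => l (m π) := by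
  refine ⟨by rw [map_mul]; exact h1.1.mul h2.1, fun π I hI hy => ?_⟩
  filter_upwards [h1.2 (m π) I hI hy, (td hy β).eventually (h2.2 π I hI hy)] with w e1 e2
  rw [e1, e2, map_mul, mul_inv_rev, MulAut.mul_apply, MulAut.mul_apply]

theorem Good.equi1 {β : Par α} {a : MulAut F} {l : A.Φ → A.Φ} (h : Good ρ A y β a l)
    {I : Finset α} (hI : Ok I) (hy : y ∈ I) {t : FreeGroup α} (ht : t ∈ std (I : Set α))
    (π : A.Φ) : l (A.r t π) = A.r (multi {y} β t) (l π) := by
  have ht' := pres1 (Finset.mem_coe.2 hy) β ht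
  refine A.inj _ _ I hI ?_
  filter_upwards [h.2 (A.r t π) I hI hy, (td hy β).eventually (A.r_rep t π I hI ht),
    A.r_rep _ (l π) I hI ht', (tendsto_conj ht').eventually (h.2 π I hI hy)] with w e1 e2 e3 e4
  rw [e1, e2, e3, e4, map_mul, map_mul, map_inv, MulAut.inv_apply_self]

theorem ok2 [Finite α] (hn : 8 ≤ Nat.card α) (x y : α) : ∃ I : Finset α, Ok I ∧ x ∈ I ∧ y ∈ I := by
  classical
  obtain ⟨I, h1, h2, -⟩ := exists_set (A := {x, y}) (Z := ∅) (k := 3)
    (Finset.disjoint_empty_right _) (Finset.card_le_two.trans (by norm_num))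
    (by rw [Finset.card_empty]; omega)
  exact ⟨I, ⟨h1.ge, by omega⟩, h2 (by simp), h2 (by simp)⟩

theorem Good.equi [Finite α] (hn : 8 ≤ Nat.card α) {β : Par α} {a : MulAut F} {l : A.Φ → A.Φ}
    (h : Good ρ A y β a l) (t : FreeGroup α) :
    ∀ π, l (A.r t π) = A.r (multi {y} β t) (l π) := by
  induction t using FreeGroup.induction_on with
  | C1 => intro π; simp
  | of x =>
    obtain ⟨I, hI, hx, hy⟩ := ok2 hn x y
    exact h.equi1 hI hy (of_mem_std (Finset.mem_coe.2 hx))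
  | inv_of x _ =>
    obtain ⟨I, hI, hx, hy⟩ := ok2 hn x y
    exact h.equi1 hI hy (inv_mem (of_mem_std (Finset.mem_coe.2 hx)))
  | mul s t hs ht =>
    intro π
    rw [map_mul, map_mul, map_mul, Equiv.Perm.mul_apply, Equiv.Perm.mul_apply, hs, ht]

theorem good_ex [Finite α] (hn : 8 ≤ Nat.card α) (hP : PortSys ρ P) (A : Acts P) {z : α}
    {c : FreeGroup α} (hc : c ∈ std ({y} : Set α)) {a : MulAut F}
    (ha : Lifts ρ (multi {y} (bZ {z} c)) a) : ∃ l, Good ρ A y (bZ {z} c) a l := by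
  classical
  obtain ⟨I₀, h₀, -, hy₀⟩ := ok2 hn y y
  have key : ∀ π, ∃ π', ∀ I, Ok I → {y} ⊆ I →
      A.rep π' =ᶠ[deep I] fun w => a (A.rep π ((multi {y} (bZ {z} c))⁻¹ w)) := by
    intro π
    refine A.toAtlas.glue hP {y} (fun I hI hy => ?_) h₀ (Finset.singleton_subset_iff.2 hy₀)
    have hy' := Finset.singleton_subset_iff.1 hy
    obtain ⟨x, hx⟩ := exists_notMem (S := insert z I)
      ((Finset.card_insert_le _ _).trans_lt (by have := hI.2; omega))
    rw [Finset.mem_insert, not_or] at hx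
    refine hP.aut I _ x _ a hI (A.mem π I hI) hx.2 ⟨fun x' hx' => ?_, pres ?_ _⟩
      (pres (Finset.mem_coe.2 hy') _) ha
    · have e : x' = x := by simpa using hx'
      exact multi_bZ_neg hc (by rw [e, Finset.mem_singleton]; exact hx.1)
    · intro e
      exact hx.2 (Set.mem_singleton_iff.1 e ▸ hy')
  choose l hl using key
  exact ⟨l, ha, fun π I hI hy => hl π I hI (Finset.singleton_subset_iff.2 hy)⟩

/-- One letter. -/
theorem one_letter [Finite α] (hn : 8 ≤ Nat.card α) (hP : PortSys ρ P) (a b : Node A.Φ α)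
    (hy : ∀ x, a.2 = some x → x = y) {z : α} (hz : z ≠ y)
    (h : ∀ I, Ch I {z} → A.R ρ I {z} a b) :
    ∃ Λ : Subgroup (FreeGroup α), Λ.FiniteIndex ∧ ∀ c ∈ Λ, c ∈ std ({y} : Set α) →
      ∃ e l, Good ρ A y (bZ {z} c) e l ∧ l a.1 = a.1 ∧ ∃ t, l b.1 = A.r t b.1 := by
  obtain ⟨I, h1, h2, h3⟩ := exists_set (A := {y}) (Z := {z}) (k := 3)
    (Finset.disjoint_singleton.2 hz.symm) (by simp) (by rw [Finset.card_singleton]; omega)
  have hc : Ch I {z} := ⟨h1.ge, by omega, by simp, h3⟩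
  have hI := hc.ok
  have hyI := Finset.singleton_subset_iff.1 h2
  have hzI : z ∉ I := Finset.disjoint_singleton_right.1 h3
  obtain ⟨π, o⟩ := a
  obtain ⟨π', o'⟩ := b
  obtain ⟨Λ₁, f₁, h₁⟩ := eventually_deepK.1 ((hP.ev_isSig hc (A.mem π I hI)).and
    ((hP.ev_isSig hc (A.mem π' I hI)).and (h I hc)))
  obtain ⟨Λ₂, f₂, h₂⟩ := hP.hom I _ hI (A.mem π' I hI)
  refine ⟨Λ₁ ⊓ Λ₂, inferInstance, fun c hcΛ hcy => ?_⟩
  have hcI : c ∈ std (I : Set α) :=
    std_mono (Set.singleton_subset_iff.2 (Finset.mem_coe.2 hyI)) hcy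
  obtain ⟨s1, s2, s3⟩ := h₁ (bZ {z} c) fun k => ⟨bZ_mem hcΛ.1 k, bZ_mem hcI k, bZ_neg c⟩
  have em : multi (I : Set α) (bZ {z} c) = multi {y} (bZ {z} c) := by
    refine aut_ext fun x => ?_
    by_cases hx : x ∈ ({z} : Finset α)
    · have e := Finset.mem_singleton.1 hx
      rw [multi_bZ_pos hcI hx (by rw [e]; exact hzI), multi_bZ_pos hcy hx (by rw [e]; exact hz)]
    · rw [multi_bZ_neg hcI hx, multi_bZ_neg hcy hx]
  have efix : ∀ w ∈ std (I : Set α), (multi {y} (bZ {z} c))⁻¹ w = w := fun w hw => by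
    rw [← em, ← map_inv]
    exact multi_std _ hw
  have e1 : A.sec ρ I (π, o) (bZ {z} c) = sig ρ I (A.rep π) (bZ {z} c) := by
    cases o with
    | none => rfl
    | some x =>
      have hx : x = y := hy x rfl
      show MulAut.conj (A.rep π (bZ {z} c (x, false))) * _ = _
      rw [bZ_neg c (by rw [hx, Finset.mem_singleton]; exact hz.symm),
        hP.map_one hI (A.mem π I hI), map_one, one_mul]
  have e2 : ∃ d ∈ Λ₂, d ∈ std (I : Set α) ∧ A.sec ρ I (π', o') (bZ {z} c) =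
      MulAut.conj (A.rep π' d) * sig ρ I (A.rep π') (bZ {z} c) := by
    cases o' with
    | none =>
      refine ⟨1, one_mem _, one_mem _, ?_⟩
      rw [hP.map_one hI (A.mem π' I hI), map_one, one_mul]
      rfl
    | some x => exact ⟨_, bZ_mem hcΛ.2 (x, false), bZ_mem hcI _, rfl⟩
  obtain ⟨d, hd, hdI, e2⟩ := e2
  rw [e1, e2] at s3
  obtain ⟨l, hl⟩ := good_ex hn hP A hcy (em ▸ s1.1)
  refine ⟨_, l, hl, A.inj _ _ I hI ?_, d⁻¹, A.inj _ _ I hI ?_⟩
  · filter_upwards [hl.2 π I hI hyI, s1.2, ev_std I] with w q1 q2 q3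
    rw [q1, efix w q3, q2]
  · filter_upwards [hl.2 π' I hI hyI, s2.2, ev_std I, ev_mem I Λ₂,
      A.r_rep d⁻¹ π' I hI (inv_mem hdI)] with w q1 q2 q3 q4 q5
    have q6 := h₂ (d * w * d⁻¹) (mul_mem (mul_mem hd q4) (inv_mem hd)) d hd
      (mul_mem (mul_mem hdI q3) (inv_mem hdI)) hdI
    rw [inv_mul_cancel_right, h₂ d hd w q4 hdI q3] at q6
    rw [q1, efix w q3, s3, MulAut.mul_apply, q2, MulAut.conj_apply, q5, inv_inv, q6,
      mul_inv_cancel_right]

theorem pow_ne (y : α) {M : ℕ} (hM : 0 < M) : (FreeGroup.of y) ^ M ≠ 1 := by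
  intro h
  have e := congrArg (FreeGroup.lift fun _ : α => Multiplicative.ofAdd (1 : ℤ)) h
  rw [map_pow, FreeGroup.lift_apply_of, MonoidHom.map_one, ← ofAdd_nsmul, ofAdd_eq_one] at e
  simp only [nsmul_eq_mul, mul_one, Nat.cast_eq_zero] at e
  omega

theorem bZ_insert [DecidableEq α] {z : α} {Z : Finset α} (hz : z ∉ Z) (c : FreeGroup α) :
    bZ (insert z Z) c = bZ {z} c * bZ Z c := by
  funext k
  rw [Pi.mul_apply]
  by_cases k1 : k.1 = z
  · rw [bZ_pos c (Finset.mem_insert.2 (Or.inl k1)), bZ_pos c (Finset.mem_singleton.2 k1),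
      bZ_neg c (by rw [k1]; exact hz), mul_one]
  · rw [bZ_neg c (Z := {z}) (fun q => k1 (Finset.mem_singleton.1 q)), one_mul]
    by_cases k2 : k.1 ∈ Z
    · rw [bZ_pos c k2, bZ_pos c (Finset.mem_insert_of_mem k2)]
    · rw [bZ_neg c k2, bZ_neg c (by rw [Finset.mem_insert, not_or]; exact ⟨k1, k2⟩)]

theorem all_letters [Finite α] (hn : 8 ≤ Nat.card α) {π π' : A.Φ} {c : FreeGroup α}
    (hc : ∀ z, z ≠ y → ∃ e l, Good ρ A y (bZ {z} c) e l ∧ l π = π ∧ ∃ t, l π' = A.r t π')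
    (Z : Finset α) :
    y ∉ Z → ∃ e l, Good ρ A y (bZ Z c) e l ∧ l π = π ∧ ∃ t, l π' = A.r t π' := by
  classical
  induction Z using Finset.induction_on with
  | empty =>
    intro _
    have e : bZ (∅ : Finset α) c = 1 := funext fun k => bZ_neg c (Finset.notMem_empty _)
    refine ⟨1, id, ?_, rfl, 1, by rw [map_one]; rfl⟩
    rw [e]
    refine ⟨?_, fun π I _ _ => Eventually.of_forall fun w => ?_⟩
    · unfold Lifts
      rw [map_one, map_one, map_one, map_one]
    · rw [map_one, inv_one]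
      rfl
  | insert z Z hz ih =>
    intro hyZ
    rw [Finset.mem_insert, not_or] at hyZ
    obtain ⟨e, l, g1, g2, t, g3⟩ := ih hyZ.2
    obtain ⟨e', l', g1', g2', t', g3'⟩ := hc z (Ne.symm hyZ.1)
    refine ⟨e' * e, fun π => l' (l π), ?_, (congrArg l' g2).trans g2',
      multi {y} (bZ {z} c) t * t', ?_⟩
    · rw [bZ_insert hz]
      exact g1'.mul g1
    · show l' (l π') = _
      rw [g3, g1'.equi hn, g3', map_mul, Equiv.Perm.mul_apply]

theorem inner [Finite α] (hn : 8 ≤ Nat.card α) {β : Par α} {c : FreeGroup α} {e : MulAut F}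
    {l : A.Φ → A.Φ} (g : Good ρ A y β e l) (hcy : c ∈ std ({y} : Set α))
    (em : multi {y} β = MulAut.conj c⁻¹) : ∃ u, ∀ π, A.l u π = A.r c (l π) := by
  have h1 : mkOut F e = 1 := by
    have q := g.1
    rw [em] at q
    unfold Lifts at q
    rw [q, mkOut_conj, map_one]
  obtain ⟨u, rfl⟩ := mkOut_eq_one.1 h1
  obtain ⟨I, hI, -, hyI⟩ := ok2 hn y y
  have hcI : c ∈ std (I : Set α) :=
    std_mono (Set.singleton_subset_iff.2 (Finset.mem_coe.2 hyI)) hcy
  refine ⟨u, fun π => A.inj _ _ I hI ?_⟩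
  filter_upwards [A.l_rep u π I hI, A.r_rep c (l π) I hI hcI,
    (tendsto_conj hcI).eventually (g.2 π I hI hyI)] with w q1 q2 q3
  rw [q1, q2, q3, em, ← map_inv, inv_inv, MulAut.conj_apply, MulAut.conj_apply]
  simp only [mul_assoc, mul_inv_cancel_left, mul_inv_cancel, mul_one]

theorem ex_letter [Finite α] (hn : 8 ≤ Nat.card α) (o : Option α) :
    ∃ y, ∀ x, o = some x → x = y := by
  cases o with
  | none =>
    obtain ⟨y, -⟩ := exists_notMem (α := α) (S := ∅) (by rw [Finset.card_empty]; omega)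
    exact ⟨y, fun _ e => nomatch e⟩
  | some y => exact ⟨y, fun _ e => (Option.some.inj e).symm⟩

theorem multi_all [Fintype α] [DecidableEq α] {c : FreeGroup α} (hcy : c ∈ std ({y} : Set α))
    (hcm : Commute c (FreeGroup.of y)) :
    multi {y} (bZ (Finset.univ.erase y) c) = MulAut.conj c⁻¹ := by
  refine aut_ext fun x => ?_
  rw [MulAut.conj_apply, inv_inv]
  by_cases hx : x = y
  · rw [multi_bZ_neg hcy (by rw [hx]; exact Finset.notMem_erase _ _), hx, mul_assoc, ← hcm.eq,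
      inv_mul_cancel_left]
  · exact multi_bZ_pos hcy (Finset.mem_erase.2 ⟨hx, Finset.mem_univ _⟩) hx

end RTr

open RTr in
theorem rowTr : StmtTr := by
  intro α F _ _ ρ P A hn hP a b h
  classical
  obtain ⟨y, hy⟩ := ex_letter hn a.2
  have h0 := fun z : {z // z ≠ y} => one_letter hn hP a b hy z.2 fun I => h I z.1
  choose Λ hΛ hc using h0
  have fi : (⨅ z, Λ z).FiniteIndex := Subgroup.finiteIndex_iInf hΛ
  obtain ⟨M, hM, -, hMm⟩ := Subgroup.exists_pow_mem_of_index_ne_zero fi.index_ne_zero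
    (FreeGroup.of y)
  have hcy : FreeGroup.of y ^ M ∈ std ({y} : Set α) :=
    pow_mem (of_mem_std (Set.mem_singleton y)) M
  have hcm : Commute (FreeGroup.of y ^ M) (FreeGroup.of y) := (Commute.refl _).pow_left M
  have hne := pow_ne y hM
  generalize FreeGroup.of y ^ M = c at hMm hcy hcm hne
  have := Fintype.ofFinite α
  obtain ⟨e, l, g1, g2, t, g3⟩ := all_letters hn
    (fun z hz => hc ⟨z, hz⟩ c (Subgroup.mem_iInf.1 hMm _) hcy) (Finset.univ.erase y)
    (Finset.notMem_erase _ _)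
  obtain ⟨u, h2⟩ := inner hn g1 hcy (multi_all hcy hcm)
  exact ⟨u, c, c * t, hne, by rw [h2, g2], by rw [h2, g3, map_mul, Equiv.Perm.mul_apply]⟩

end Pool.Agent.MP_3ce0a0_al.Q2T14
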