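import Pool.Agent.MP_3ce0a0_al.Q2T14.Asm
import Pool.Agent.MP_3ce0a0_al.Q2T14.RAtlas
import Pool.Agent.MP_3ce0a0_al.Q2T14.RInn
import Pool.Agent.MP_3ce0a0_al.Q2T14.RActs
import Pool.Agent.MP_3ce0a0_al.Q2T14.RKI
import Pool.Agent.MP_3ce0a0_al.Q2T14.RCharts
import Pool.Agent.MP_3ce0a0_al.Q2T14.RTr
import Pool.Agent.MP_3ce0a0_al.Q2T14.RSide
import Pool.Agent.MP_3ce0a0_al.Q2T14.ROrbit
import Pool.Agent.MP_3ce0a0_al.Q2T14.RIndex

/-! Block T14: a system of ports forces the divisibility of the ranks. -/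

set_option autoImplicit false

namespace Pool.Agent.MP_3ce0a0_al.Q2T14

theorem t14g : StmtT14g :=
  asm rowAtlas (rowActs rowInn) rowKI rowCharts rowTr rowSide rowOrbit rowIndex

theorem t14 : StmtT14 := t14_of_g t14g

end Pool.Agent.MP_3ce0a0_al.Q2T14
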