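import Pool.Agent.MP_3ce0a0_al.Q2T15.Defs

/-! Systems of ports: the interface between the blocks T13 and T14. -/

set_option autoImplicit false

namespace Pool.Agent.MP_3ce0a0_al.Q2T14

open Pool.Agent.MP_3ce0a0_al.H79 Pool.Agent.MP_3ce0a0_al.Q2T15 Filter

noncomputable section

variable {α : Type}

/-- The sets that contain the trace on `std I` of a finite index subgroup. -/
def deep (I : Finset α) : Filter (FreeGroup α) where
  sets := {S | ∃ Λ : Subgroup (FreeGroup α), Λ.FiniteIndex ∧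
    ∀ w ∈ Λ, w ∈ std (I : Set α) → w ∈ S}
  univ_sets := ⟨⊤, inferInstance, fun _ _ _ => trivial⟩
  sets_of_superset := fun ⟨Λ, h, hS⟩ hST => ⟨Λ, h, fun w hw hI => hST (hS w hw hI)⟩
  inter_sets := fun ⟨Λ, _, hS⟩ ⟨Λ', _, hT⟩ =>
    ⟨Λ ⊓ Λ', inferInstance, fun w hw hI => ⟨hS w hw.1 hI, hT w hw.2 hI⟩⟩

/-- Parameters of multitwists. -/
abbrev Par (α : Type) : Type := α × Bool → FreeGroup α

/-- The parameter `β` is supported on the ends of the letters of `L`, with values in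
`Λ ∩ std I`. -/
def InK (I L : Finset α) (Λ : Subgroup (FreeGroup α)) (β : Par α) : Prop :=
  ∀ h, β h ∈ Λ ∧ β h ∈ std (I : Set α) ∧ (h.1 ∉ L → β h = 1)

/-- Deep parameters in `K(I, L)`. -/
def deepK (I L : Finset α) : Filter (Par α) where
  sets := {S | ∃ Λ : Subgroup (FreeGroup α), Λ.FiniteIndex ∧ ∀ β, InK I L Λ β → β ∈ S}
  univ_sets := ⟨⊤, inferInstance, fun _ _ => trivial⟩
  sets_of_superset := fun ⟨Λ, h, hS⟩ hST => ⟨Λ, h, fun β hβ => hST (hS β hβ)⟩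
  inter_sets := fun ⟨Λ, _, hS⟩ ⟨Λ', _, hT⟩ =>
    ⟨Λ ⊓ Λ', inferInstance, fun β hβ =>
      ⟨hS β fun h => ⟨(hβ h).1.1, (hβ h).2⟩, hT β fun h => ⟨(hβ h).1.2, (hβ h).2⟩⟩⟩

theorem eventually_deep {I : Finset α} {p : FreeGroup α → Prop} :
    (∀ᶠ w in deep I, p w) ↔ ∃ Λ : Subgroup (FreeGroup α), Λ.FiniteIndex ∧
      ∀ w ∈ Λ, w ∈ std (I : Set α) → p w := Iff.rfl

theorem eventually_deepK {I L : Finset α} {p : Par α → Prop} :
    (∀ᶠ β in deepK I L, p β) ↔ ∃ Λ : Subgroup (FreeGroup α), Λ.FiniteIndex ∧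
      ∀ β, InK I L Λ β → p β := Iff.rfl

variable {F : Type} [Group F] (ρ : Out (FreeGroup α) →* Out F)

/-- `a` is a lift of `ρ γ`. -/
def Lifts (γ : MulAut (FreeGroup α)) (a : MulAut F) : Prop :=
  mkOut F a = ρ (mkOut (FreeGroup α) γ)

/-- `a` lifts the multitwist `β` over `std I` and fixes the deep values of `f`. -/
def IsSig (I : Finset α) (f : FreeGroup α → F) (β : Par α) (a : MulAut F) : Prop :=
  Lifts ρ (multi (I : Set α) β) a ∧ ∀ᶠ w in deep I, a (f w) = f w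

/-- The section that centralises the image of `f`. -/
def sig (I : Finset α) (f : FreeGroup α → F) (β : Par α) : MulAut F :=
  Classical.epsilon (IsSig ρ I f β)

/-- The section at the other end of the port `f` with label `h`. -/
def tv (I : Finset α) (f : FreeGroup α → F) (h : α × Bool) (β : Par α) : MulAut F :=
  MulAut.conj (f (β h)) * sig ρ I f β

/-- Admissible sets of letters. -/
def Ok (I : Finset α) : Prop := 3 ≤ I.card ∧ I.card ≤ 5

/-- Charts. -/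
def Ch (I L : Finset α) : Prop := 3 ≤ I.card ∧ I.card ≤ 4 ∧ L.card ≤ 2 ∧ Disjoint I L

/-- Sets of sections that depend only on the germ. -/
def Sat (I L : Finset α) (S : Set (Par α → MulAut F)) : Prop :=
  ∀ s s', s =ᶠ[deepK I L] s' → s ∈ S → s' ∈ S

/-- What the last block uses about ports. -/
structure PortSys (P : Finset α → (FreeGroup α → F) → Prop) : Prop where
  congr : ∀ I f g, Ok I → P I f → f =ᶠ[deep I] g → P I g
  hom : ∀ I f, Ok I → P I f → ∃ Λ : Subgroup (FreeGroup α), Λ.FiniteIndex ∧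
    ∀ u ∈ Λ, ∀ v ∈ Λ, u ∈ std (I : Set α) → v ∈ std (I : Set α) → f (u * v) = f u * f v
  free : ∀ I f u, Ok I → P I f → (∀ᶠ w in deep I, u * f w * u⁻¹ = f w) → u = 1
  ne : ∀ I, Ok I → ∃ f, P I f
  fin : ∀ I, Ok I → ∃ T : Set (FreeGroup α → F), T.Finite ∧
    ∀ f, P I f → ∃ g ∈ T, ∃ u : F, f =ᶠ[deep I] fun w => u * g w * u⁻¹
  res : ∀ J I f, Ok J → Ok I → J ⊆ I → P I f → P J f
  ext : ∀ J I f, Ok J → Ok I → J ⊆ I → P J f → ∃ g, P I g ∧ g =ᶠ[deep J] f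
  inj : ∀ J I f g, Ok J → Ok I → J ⊆ I → P I f → P I g → f =ᶠ[deep J] g → f =ᶠ[deep I] g
  aut : ∀ I f x γ a, Ok I → P I f → x ∉ I → γ ∈ NA ({x}ᶜ : Set α) →
    (∀ w, γ w ∈ std (I : Set α) ↔ w ∈ std (I : Set α)) → Lifts ρ γ a →
      P I fun w => a (f (γ⁻¹ w))
  sig_ex : ∀ I L f, Ch I L → P I f → ∀ᶠ β in deepK I L, ∃ a, IsSig ρ I f β a
  conn : ∀ I L S, Ch I L → Sat I L S →
    (∀ f h, P I f → h.1 ∈ L → (sig ρ I f ∈ S ↔ tv ρ I f h ∈ S)) →
      ∀ f g, P I f → P I g → sig ρ I f ∈ S → sig ρ I g ∈ S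
  acyc : ∀ I f h, Ch I {h.1} → P I f → ∃ S, Sat I {h.1} S ∧ sig ρ I f ∈ S ∧ tv ρ I f h ∉ S ∧
    ∀ g k, P I g → k.1 = h.1 → ¬ (k = h ∧ g =ᶠ[deep I] f) → (sig ρ I g ∈ S ↔ tv ρ I g k ∈ S)

variable {ρ}

/-- The section is unique. -/
theorem IsSig.uniq {I : Finset α} {f : FreeGroup α → F} {β : Par α} {a b : MulAut F}
    (hf : ∀ u, (∀ᶠ w in deep I, u * f w * u⁻¹ = f w) → u = 1) (ha : IsSig ρ I f β a)
    (hb : IsSig ρ I f β b) : a = b := by
  have h1 : a * b⁻¹ ∈ Inn F := by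
    rw [← div_eq_mul_inv, ← QuotientGroup.eq_iff_div_mem]
    exact ha.1.trans hb.1.symm
  obtain ⟨u, hu⟩ := h1
  have h2 : a = MulAut.conj u * b := by rw [hu, inv_mul_cancel_right]
  have h3 : u = 1 := by
    refine hf u ((ha.2.and hb.2).mono fun w hw => ?_)
    have h4 := hw.1
    rwa [h2, MulAut.mul_apply, hw.2, MulAut.conj_apply] at h4
  rw [h2, h3, map_one, one_mul]

theorem isSig_sig {I : Finset α} {f : FreeGroup α → F} {β : Par α} (h : ∃ a, IsSig ρ I f β a) :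
    IsSig ρ I f β (sig ρ I f β) := Classical.epsilon_spec h

theorem IsSig.eq_sig {I : Finset α} {f : FreeGroup α → F} {β : Par α} {a : MulAut F}
    (hf : ∀ u, (∀ᶠ w in deep I, u * f w * u⁻¹ = f w) → u = 1) (ha : IsSig ρ I f β a) :
    sig ρ I f β = a := (isSig_sig ⟨a, ha⟩).uniq hf ha

end

/-- The statement of the block T14. -/
def StmtT14 : Prop := ∀ (n m : ℕ) (ρ : Out (FreeGroup (Fin n)) →* Out (FreeGroup (Fin m)))
  (P : Finset (Fin n) → (FreeGroup (Fin n) → FreeGroup (Fin m)) → Prop), 8 ≤ n → PortSys ρ P →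
    n - 1 ∣ m - 1

end Pool.Agent.MP_3ce0a0_al.Q2T14
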