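import Pool.Agent.MP_3ce0a0_al.Q2T14.Basic
import Pool.Agent.MP_3ce0a0_al.Q2T13.Defs
import Pool.Agent.MP_3ce0a0_al.Q2T4A.Alg

/-! The ports of the block T13 form a system of ports in the sense of the block T14. -/

set_option autoImplicit false

namespace Pool.Agent.MP_3ce0a0_al.Q2T14

open Pool.Agent.MP_3ce0a0_al.H79 Pool.Agent.MP_3ce0a0_al.Q2T15 Filter
open Q2T13 (Dp KK sf Phi TK Fixes nd Step Sz Ports)

namespace RAdapt

theorem dp_comap {A B : Type} [Group A] [Group B] {K H : Subgroup A} (h : Dp K H) (φ : B →* A)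
    (hφ : ∀ b, φ b ∈ K) : (H.comap φ).FiniteIndex := by
  refine ⟨fun h0 => h.2 ?_⟩
  rw [Subgroup.index_comap] at h0
  exact Subgroup.relIndex_eq_zero_of_le_right (by rintro _ ⟨b, rfl⟩; exact hφ b) h0

theorem dp_inf {A : Type} [Group A] (K Λ : Subgroup A) [Λ.FiniteIndex] : Dp K (Λ ⊓ K) := by
  refine ⟨inf_le_right, ?_⟩
  rw [Subgroup.inf_relIndex_right]
  exact Subgroup.FiniteIndex.index_ne_zero

variable {α F : Type} [Group F] {ρ : Out (FreeGroup α) →* Out F}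

theorem deep_eq (I : Finset α) : Q2T13.deep (sf I) = deep I :=
  Filter.ext fun _ => ⟨fun ⟨H, h, hS⟩ => ⟨H.comap (ret I), dp_comap h _ (ret_mem _),
    fun w hw hI => hS w (ret_eq_self hI ▸ Subgroup.mem_comap.1 hw)⟩,
    fun ⟨Λ, _, hS⟩ => ⟨_, dp_inf _ Λ, fun w hw => hS w hw.1 hw.2⟩⟩

theorem deepK_eq (I L : Finset α) : Q2T13.deep (KK (sf I) L) = deepK I L := by
  classical
  have hm : ∀ k : α × Bool, k ∈ L ×ˢ (Finset.univ : Finset Bool) ↔ k.1 ∈ L := fun k => by simp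
  refine Filter.ext fun S => ⟨fun ⟨H, h, hS⟩ => ?_, fun ⟨Λ, _, hS⟩ => ?_⟩
  · refine ⟨⨅ k ∈ L ×ˢ (Finset.univ : Finset Bool), H.comap
      ((MonoidHom.mulSingle (fun _ : α × Bool => FreeGroup α) k).comp (ret I)),
      Subgroup.finiteIndex_iInf' _ fun k hk => dp_comap h _ fun b j => ?_, fun β hβ => hS β ?_⟩
    · change (Pi.mulSingle k (ret I b) : Par α) j ∈ sf I ∧
        (j.1 ∉ L → (Pi.mulSingle k (ret I b) : Par α) j = 1)
      by_cases e : j = k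
      · subst e
        rw [Pi.mulSingle_eq_same]
        exact ⟨ret_mem _ _, fun hj => absurd ((hm j).1 hk) hj⟩
      · rw [Pi.mulSingle_eq_of_ne e]
        exact ⟨one_mem _, fun _ => rfl⟩
    · refine Submonoid.pi_mem_of_mulSingle_mem_aux (L ×ˢ (Finset.univ : Finset Bool)) β
        (fun k hk => (hβ k).2.2 fun x => hk ((hm k).2 x)) fun k hk => ?_
      have h1 : Pi.mulSingle k (ret I (β k)) ∈ H :=
        Subgroup.mem_iInf.1 (Subgroup.mem_iInf.1 (hβ k).1 k) hk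
      rwa [ret_eq_self (hβ k).2.1] at h1
  · have := Subgroup.finiteIndex_iInf' (s := L ×ˢ (Finset.univ : Finset Bool))
      (fun k => Λ.comap (Pi.evalMonoidHom (fun _ : α × Bool => FreeGroup α) k))
      fun k _ => fi_comap _ Λ
    refine ⟨_, dp_inf _ (⨅ k ∈ L ×ˢ (Finset.univ : Finset Bool),
      Λ.comap (Pi.evalMonoidHom (fun _ : α × Bool => FreeGroup α) k)),
      fun β hβ => hS β fun k => ⟨?_, hβ.2 k⟩⟩
    by_cases hk : k.1 ∈ L
    · exact Subgroup.mem_iInf.1 (Subgroup.mem_iInf.1 hβ.1 k) ((hm k).2 hk)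
    · rw [(hβ.2 k).2 hk]
      exact one_mem _

theorem isSig_iff {I : Finset α} {f : FreeGroup α → F} {β : Par α} {a : MulAut F} :
    IsSig ρ I f β a ↔ mkOut F a = TK ρ I β ∧ Fixes (sf I) f a := by
  rw [Fixes, deep_eq]
  rfl

theorem sz_of_ok {I : Finset α} (h : Ok I) : Sz I :=
  ⟨le_trans (by norm_num) h.1, h.2.trans (by norm_num)⟩

variable [IsFreeGroup F] {I L : Finset α} {f : FreeGroup α → F}

theorem free (hf : f ∈ Phi ρ I) (u : F) (hu : ∀ᶠ w in deep I, u * f w * u⁻¹ = f w) : u = 1 := by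
  obtain ⟨_, -, ⟨-, h, -⟩, -⟩ := hf
  rw [← deep_eq] at hu
  obtain ⟨H, hH, hu⟩ := hu
  obtain ⟨a, ha, b, hb, hab⟩ := h H hH
  exact Q2T4A.eq_one_of_comm hab (mul_inv_eq_iff_eq_mul.1 (hu a ha))
    (mul_inv_eq_iff_eq_mul.1 (hu b hb))

omit [IsFreeGroup F] in
theorem sig_ex (h : Ports ρ) (hc : Ch I L) (hf : f ∈ Phi ρ I) :
    ∀ᶠ β in deepK I L, ∃ a, IsSig ρ I f β a := by
  rw [← deepK_eq]
  exact (h.cen I L (sz_of_ok hc.ok) hc.2.2.2 (hc.2.2.1.trans (by norm_num)) f hf).mono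
    fun β ⟨a, ha⟩ => ⟨a, isSig_iff.2 ha⟩

theorem nd_none (h : Ports ρ) (hc : Ch I L) (hf : f ∈ Phi ρ I) :
    nd ρ I f none =ᶠ[deepK I L] sig ρ I f := by
  refine (sig_ex h hc hf).mono fun β ⟨a, ha⟩ => ?_
  have h1 : ∃ a, mkOut F a = TK ρ I β ∧ Fixes (sf I) f a := ⟨a, isSig_iff.1 ha⟩
  change Q2T13.sig (sf I) f (TK ρ I β) = _
  rw [Q2T13.sig, dif_pos h1]
  exact ((isSig_iff.2 h1.choose_spec).eq_sig (free hf)).symm

theorem nd_some (h : Ports ρ) (hc : Ch I L) (hf : f ∈ Phi ρ I) (k : α × Bool) :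
    nd ρ I f (some k) =ᶠ[deepK I L] tv ρ I f k :=
  (nd_none h hc hf).mono fun β e => congrArg (MulAut.conj (f (β k)) * ·) e

theorem sig_one (hf : f ∈ Phi ρ I) : sig ρ I f 1 = 1 := by
  refine IsSig.eq_sig (free hf) ⟨?_, Eventually.of_forall fun _ => rfl⟩
  rw [Lifts, map_one, map_one, map_one, map_one]

theorem conn (h : Ports ρ) (hc : Ch I L) {S : Set (Par α → MulAut F)} (hS : Sat I L S)
    (hP : ∀ f k, f ∈ Phi ρ I → k.1 ∈ L → (sig ρ I f ∈ S ↔ tv ρ I f k ∈ S))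
    {g : FreeGroup α → F} (hf : f ∈ Phi ρ I) (hg : g ∈ Phi ρ I) (h0 : sig ρ I f ∈ S) :
    sig ρ I g ∈ S := by
  rcases L.eq_empty_or_nonempty with rfl | hL
  · refine hS _ _ ⟨⊤, inferInstance, fun β hβ => ?_⟩ h0
    obtain rfl : β = 1 := funext fun k => (hβ k).2.2 (Finset.notMem_empty _)
    exact (sig_one hf).trans (sig_one hg).symm
  have key : ∀ s, Relation.ReflTransGen (Step ρ I L fun _ _ => True) (nd ρ I f none) s →
      s ∈ S := fun s hs => by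
    induction hs with
    | refl => exact hS _ _ (nd_none h hc hf).symm h0
    | tail _ h1 ih =>
      rcases h1 with e | ⟨f', hf', k, hk, -, ⟨rfl, rfl⟩ | ⟨rfl, rfl⟩⟩
      · exact hS _ _ (deepK_eq I L ▸ e) ih
      · exact hS _ _ (nd_some h hc hf' k).symm
          ((hP f' k hf' hk).1 (hS _ _ (nd_none h hc hf') ih))
      · exact hS _ _ (nd_none h hc hf').symm
          ((hP f' k hf' hk).2 (hS _ _ (nd_some h hc hf' k) ih))
  exact hS _ _ (nd_none h hc hg) (key _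
    (h.conn I L (sz_of_ok hc.ok) hc.2.2.2 (hc.2.2.1.trans (by norm_num)) hL f hf g hg))

theorem acyc (h : Ports ρ) {j : α × Bool} (hc : Ch I {j.1}) (hf : f ∈ Phi ρ I) :
    ∃ S, Sat I {j.1} S ∧ sig ρ I f ∈ S ∧ tv ρ I f j ∉ S ∧ ∀ g k, g ∈ Phi ρ I → k.1 = j.1 →
      ¬ (k = j ∧ g =ᶠ[deep I] f) → (sig ρ I g ∈ S ↔ tv ρ I g k ∈ S) := by
  let S : Set (Par α → MulAut F) := {s | Relation.ReflTransGen
    (Step ρ I {j.1} fun f' k => ¬ (k = j ∧ f' =ᶠ[Q2T13.deep (sf I)] f)) (nd ρ I f none) s}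
  have hS : Sat I {j.1} S := fun s s' e hs =>
    Relation.ReflTransGen.tail hs (Or.inl ((deepK_eq I {j.1}).symm ▸ e))
  refine ⟨S, hS, hS _ _ (nd_none h hc hf) Relation.ReflTransGen.refl, fun h1 => ?_,
    fun g k hg hk hn => ⟨fun h1 => ?_, fun h1 => ?_⟩⟩
  · exact h.bridge I {j.1} (sz_of_ok hc.ok) hc.2.2.2 (hc.2.2.1.trans (by norm_num)) f hf j
      (Finset.mem_singleton_self _) (hS _ _ (nd_some h hc hf j).symm h1)
  · exact hS _ _ (nd_some h hc hg k) (Relation.ReflTransGen.tail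
      (hS _ _ (nd_none h hc hg).symm h1) (Or.inr ⟨g, hg, k, Finset.mem_singleton.2 hk,
        (deep_eq I).symm ▸ hn, Or.inl ⟨rfl, rfl⟩⟩))
  · exact hS _ _ (nd_none h hc hg) (Relation.ReflTransGen.tail
      (hS _ _ (nd_some h hc hg k).symm h1) (Or.inr ⟨g, hg, k, Finset.mem_singleton.2 hk,
        (deep_eq I).symm ▸ hn, Or.inr ⟨rfl, rfl⟩⟩))

end RAdapt

open RAdapt in
theorem portSys_of_ports {α F : Type} [Group F] [IsFreeGroup F]
    (ρ : Out (FreeGroup α) →* Out F) (h : Q2T13.Ports ρ) :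
    PortSys ρ (fun I f => f ∈ Q2T13.Phi ρ I) where
  congr I f g _ hf e := h.congr I f hf g ((deep_eq I).symm ▸ e)
  hom I f hI hf := by
    obtain ⟨H, hH, h1, -⟩ := h.hom I (sz_of_ok hI) f hf
    exact ⟨H.comap (ret I), dp_comap hH _ (ret_mem _), fun u hu v hv hu' hv' =>
      h1 u (ret_eq_self hu' ▸ Subgroup.mem_comap.1 hu) v
        (ret_eq_self hv' ▸ Subgroup.mem_comap.1 hv)⟩
  free _ _ u _ hf hu := free hf u hu
  ne I hI := h.ne I (sz_of_ok hI)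
  fin I hI := deep_eq I ▸ h.fin I (sz_of_ok hI)
  res J I _ hJ hI hJI hf := h.res I J (sz_of_ok hI) (sz_of_ok hJ) hJI hf
  ext J I f hJ hI hJI hf := by
    obtain ⟨g, hg, e⟩ := h.onto I J (sz_of_ok hI) (sz_of_ok hJ) hJI f hf
    exact ⟨g, hg, deep_eq J ▸ e.symm⟩
  inj J I f g hJ hI hJI hf hg e :=
    deep_eq I ▸ h.inj I J hJ.1 hI.2 hJI f hf g hg ((deep_eq J).symm ▸ e)
  aut I f x γ a hI hf hx hγ hs ha := h.p4 I (sz_of_ok hI) x hx γ hγ hs a ha f hf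
  sig_ex _ _ _ hc hf := sig_ex h hc hf
  conn _ _ _ hc hS hP _ _ hf hg h0 := conn h hc hS hP hf hg h0
  acyc _ _ _ hc hf := acyc h hc hf

end Pool.Agent.MP_3ce0a0_al.Q2T14
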