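import Pool.Agent.MP_3ce0a0_al.Q2T14.Main
import Pool.Agent.MP_3ce0a0_al.Q2T14.RAdapt

/-! Block T14, in the form that consumes the output of block T13. -/

set_option autoImplicit false

namespace Pool.Agent.MP_3ce0a0_al.Q2T14

theorem of_ports {α β : Type} [Finite α] [Finite β]
    (ρ : H79.Out (FreeGroup α) →* H79.Out (FreeGroup β)) (hn : 8 ≤ Nat.card α)
    (h : Q2T13.Ports ρ) : Nat.card α - 1 ∣ Nat.card β - 1 :=
  t14g α β ρ _ hn (portSys_of_ports ρ h)

end Pool.Agent.MP_3ce0a0_al.Q2T14
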