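import Pool.Agent.MP_3ce0a0_al.Q2T14.Basic

/-! Block T14: assembly from the rows. -/

set_option autoImplicit false

namespace Pool.Agent.MP_3ce0a0_al.Q2T14

open Pool.Agent.MP_3ce0a0_al.H79 Pool.Agent.MP_3ce0a0_al.Q2T15 Filter

theorem asm (h1 : StmtAtlas) (h2 : StmtActs) (h3 : StmtKI) (h4 : StmtCharts) (h5 : StmtTr)
    (h6 : StmtSide) (h7 : StmtOrbit) (h8 : StmtIndex) : StmtT14g := by
  intro α β _ _ ρ P hn hP
  obtain ⟨T⟩ := h1 α _ ρ P hP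
  obtain ⟨A⟩ := h2 α _ ρ P hn hP T
  obtain ⟨s, hs⟩ := h6 _ A.Φ α A.l A.r (A.R ρ) hn A.comm (h4 α _ ρ P A hP (h3 α _ ρ P A hn hP))
    (h5 α _ ρ P A hn hP)
  obtain ⟨hf, ht⟩ := h7 _ A.Φ α A.l A.r s hs
  obtain ⟨I, hI, -, -⟩ := exists_set (α := α) (A := ∅) (Z := ∅) (k := 3)
    (Finset.disjoint_empty_right _) (by simp) (by simp; omega)
  have oI : Ok I := ⟨hI.ge, by omega⟩
  obtain ⟨f, hf0⟩ := hP.ne I oI
  obtain ⟨π₀, -⟩ := A.sur I f oI hf0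
  have : Nonempty A.Φ := ⟨π₀⟩
  refine h8 α β A.Φ A.l A.r A.comm (fun u π h => ?_) ?_ hf ht
  · refine hP.free I (A.rep π) u oI (A.mem π I oI) ?_
    have e := A.l_rep u π I oI
    rw [h] at e
    exact e.symm
  · obtain ⟨S, hS, hc⟩ := hP.fin I oI
    have hch : ∀ g : FreeGroup α → FreeGroup β, ∃ π₁ : A.Φ, ∀ π u,
        (A.rep π =ᶠ[deep I] fun w => u * g w * u⁻¹) → ∃ v, π = A.l v π₁ := by
      intro g
      by_cases hg : ∃ π u, A.rep π =ᶠ[deep I] fun w => u * g w * u⁻¹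
      · obtain ⟨π₁, u₁, e₁⟩ := hg
        refine ⟨π₁, fun π u e => ⟨u * u₁⁻¹, A.inj _ _ I oI ?_⟩⟩
        filter_upwards [e, e₁, A.l_rep (u * u₁⁻¹) π₁ I oI] with w a b c
        rw [a, c, b]
        group
      · exact ⟨π₀, fun π u e => (hg ⟨π, u, e⟩).elim⟩
    choose j hj using hch
    refine ⟨j '' S, hS.image j, fun π => ?_⟩
    obtain ⟨g, hg, u, e⟩ := hc (A.rep π) (A.mem π I oI)
    exact ⟨j g, ⟨g, hg, rfl⟩, hj g π u e⟩

theorem t14_of_g (h : StmtT14g) : StmtT14 := by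
  intro n m ρ P hn hP
  have e := h (Fin n) (Fin m) ρ P (by simpa using hn) hP
  simpa using e

end Pool.Agent.MP_3ce0a0_al.Q2T14
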