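import Pool.Agent.MP_3ce0a0_al.Q2T14.Spec

/-! Block T14: filters of deep elements, sets of letters, spreading of identities. -/

set_option autoImplicit false

namespace Pool.Agent.MP_3ce0a0_al.Q2T14

open Pool.Agent.MP_3ce0a0_al.H79 Pool.Agent.MP_3ce0a0_al.Q2T15 Filter

variable {α : Type}

theorem deep_mono {J I : Finset α} (h : J ⊆ I) : deep J ≤ deep I :=
  fun _ ⟨Λ, hΛ, hS⟩ => ⟨Λ, hΛ, fun w hw hJ => hS w hw (std_mono (Finset.coe_subset.2 h) hJ)⟩

theorem ev_std (I : Finset α) : ∀ᶠ w in deep I, w ∈ std (I : Set α) :=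
  ⟨⊤, inferInstance, fun _ _ h => h⟩

theorem ev_mem (I : Finset α) (Λ : Subgroup (FreeGroup α)) [h : Λ.FiniteIndex] :
    ∀ᶠ w in deep I, w ∈ Λ := ⟨Λ, h, fun _ h _ => h⟩

theorem fi_comap {G H : Type} [Group G] [Group H] (φ : G →* H) (Λ : Subgroup H)
    [Λ.FiniteIndex] : (Λ.comap φ).FiniteIndex := by
  refine ⟨?_⟩
  rw [Subgroup.index_comap]
  exact Subgroup.FiniteIndex.index_ne_zero

/-- A homomorphism that maps `std J` into `std I` maps deep elements to deep elements. -/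
theorem tendsto_hom {J I : Finset α} (φ : FreeGroup α →* FreeGroup α)
    (h : ∀ w ∈ std (J : Set α), φ w ∈ std (I : Set α)) : Tendsto φ (deep J) (deep I) :=
  fun _ ⟨Λ, _, hS⟩ => ⟨Λ.comap φ, fi_comap φ Λ, fun w hw hJ => hS _ hw (h w hJ)⟩

theorem tendsto_aut {J I : Finset α} (γ : MulAut (FreeGroup α))
    (h : ∀ w ∈ std (J : Set α), γ w ∈ std (I : Set α)) : Tendsto γ (deep J) (deep I) :=
  tendsto_hom γ.toMonoidHom h

theorem tendsto_conj {I : Finset α} {t : FreeGroup α} (ht : t ∈ std (I : Set α)) :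
    Tendsto (fun w => t⁻¹ * w * t) (deep I) (deep I) := by
  have h := tendsto_aut (J := I) (I := I) (MulAut.conj t⁻¹) fun w hw => by
    rw [MulAut.conj_apply]
    exact mul_mem (mul_mem (inv_mem ht) hw) (inv_mem (inv_mem ht))
  refine h.congr fun w => ?_
  rw [MulAut.conj_apply, inv_inv]

theorem deepK_mono {J K I L : Finset α} (h : J ⊆ I) (h' : K ⊆ L) : deepK J K ≤ deepK I L :=
  fun _ ⟨Λ, hΛ, hS⟩ => ⟨Λ, hΛ, fun β hβ => hS β fun k =>
    ⟨(hβ k).1, std_mono (Finset.coe_subset.2 h) (hβ k).2.1, fun hk => (hβ k).2.2 fun x => hk (h' x)⟩⟩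

theorem evK (I L : Finset α) (Λ : Subgroup (FreeGroup α)) [h : Λ.FiniteIndex] :
    ∀ᶠ β in deepK I L, InK I L Λ β := ⟨Λ, h, fun _ h => h⟩

theorem tendsto_coord (I L : Finset α) (h : α × Bool) :
    Tendsto (fun β : Par α => β h) (deepK I L) (deep I) :=
  fun _ ⟨Λ, hΛ, hS⟩ => ⟨Λ, hΛ, fun _ hβ => hS _ (hβ h).1 (hβ h).2.1⟩

theorem Ch.ok {I L : Finset α} (h : Ch I L) : Ok I := ⟨h.1, h.2.1.trans (by norm_num)⟩

theorem Ch.mono {I K L : Finset α} (h : Ch I L) (hK : K ⊆ L) : Ch I K :=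
  ⟨h.1, h.2.1, (Finset.card_le_card hK).trans h.2.2.1, h.2.2.2.mono_right hK⟩

/-- A small set of letters misses a letter. -/
theorem exists_notMem [Finite α] {S : Finset α} (h : S.card < Nat.card α) : ∃ x, x ∉ S := by
  by_contra hx
  have := Fintype.ofFinite α
  have h2 : S = Finset.univ := Finset.eq_univ_iff_forall.2 fun x => by
    by_contra hS
    exact hx ⟨x, hS⟩
  rw [h2, Finset.card_univ, Nat.card_eq_fintype_card] at h
  exact lt_irrefl _ h

/-- A set of `k` letters that contains `A` and misses `Z`. -/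
theorem exists_set [Finite α] {A Z : Finset α} {k : ℕ} (hd : Disjoint A Z) (hA : A.card ≤ k)
    (h : k + Z.card ≤ Nat.card α) : ∃ I : Finset α, I.card = k ∧ A ⊆ I ∧ Disjoint I Z := by
  classical
  have := Fintype.ofFinite α
  have h1 : A ⊆ Zᶜ := fun x hx => Finset.mem_compl.2 (Finset.disjoint_left.1 hd hx)
  have h2 : k ≤ Zᶜ.card := by
    rw [Finset.card_compl, ← Nat.card_eq_fintype_card]
    omega
  obtain ⟨I, hAI, hI, hc⟩ := Finset.exists_subsuperset_card_eq h1 hA h2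
  exact ⟨I, hc, hAI, Finset.disjoint_left.2 fun x hx => Finset.mem_compl.1 (hI hx)⟩

/-- The sets with `3 ≤ card ≤ k` that contain `A` and miss `Z` form a connected poset. -/
theorem swap (k : ℕ) (hk : 4 ≤ k) (A Z : Finset α) (Q : Finset α → Prop)
    (hQ : ∀ J I, 3 ≤ J.card → I.card ≤ k → J ⊆ I → A ⊆ J → Disjoint I Z → (Q J ↔ Q I))
    {I I' : Finset α} (h1 : 3 ≤ I.card) (h2 : I.card ≤ k) (h3 : A ⊆ I) (h4 : Disjoint I Z)
    (h1' : 3 ≤ I'.card) (h2' : I'.card ≤ k) (h3' : A ⊆ I') (h4' : Disjoint I' Z) (h : Q I) :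
    Q I' := by
  classical
  by_cases hA : 3 ≤ A.card
  · exact (hQ A I' hA h2' h3' subset_rfl h4').1 ((hQ A I hA h2 h3 subset_rfl h4).2 h)
  obtain ⟨J, hAJ, hJI, hJ⟩ := Finset.exists_subsuperset_card_eq h3 (not_le.1 hA).le h1
  obtain ⟨J', hAJ', hJI', hJ'⟩ := Finset.exists_subsuperset_card_eq h3' (not_le.1 hA).le h1'
  refine (hQ J' I' hJ'.ge h2' hJI' hAJ' h4').1 ?_
  have key : ∀ (d : ℕ) (J : Finset α), (J' \ J).card = d → J.card = 3 → A ⊆ J → Disjoint J Z →
      Q J → Q J' := by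
    intro d
    induction d with
    | zero =>
      intro J hd hJ _ _ hq
      have h5 : J' ⊆ J := Finset.sdiff_eq_empty_iff_subset.1 (Finset.card_eq_zero.1 hd)
      rwa [Finset.eq_of_subset_of_card_le h5 (by omega)]
    | succ d ih =>
      intro J hd hJ hAJ hZ hq
      obtain ⟨x, hx⟩ := Finset.card_pos.1 (by omega : 0 < (J' \ J).card)
      have hc : (J \ J').card = (J' \ J).card := Finset.card_sdiff_comm (by omega)
      obtain ⟨y, hy⟩ := Finset.card_pos.1 (by omega : 0 < (J \ J').card)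
      rw [Finset.mem_sdiff] at hx hy
      have hxy : x ≠ y := fun e => hx.2 (e ▸ hy.1)
      have c4 : (insert x J).card = 4 := by rw [Finset.card_insert_of_notMem hx.2, hJ]
      have d4 : Disjoint (insert x J) Z := Finset.disjoint_insert_left.2
        ⟨Finset.disjoint_left.1 h4' (hJI' hx.1), hZ⟩
      have c3 : ((insert x J).erase y).card = 3 := by
        rw [Finset.card_erase_of_mem (Finset.mem_insert_of_mem hy.1), c4]
      have a3 : A ⊆ (insert x J).erase y := fun a ha => Finset.mem_erase.2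
        ⟨fun e => hy.2 (e ▸ hAJ' ha), Finset.mem_insert_of_mem (hAJ ha)⟩
      refine ih _ ?_ c3 a3 (d4.mono_left (Finset.erase_subset _ _)) ?_
      · have e : J' \ (insert x J).erase y = (J' \ J).erase x := by
          ext a
          simp only [Finset.mem_sdiff, Finset.mem_erase, Finset.mem_insert, not_and, not_or]
          constructor
          · rintro ⟨ha, hb⟩
            have := hb fun e => hy.2 (e ▸ ha)
            exact ⟨this.1, ha, this.2⟩
          · rintro ⟨ha, hb, hc⟩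
            exact ⟨hb, fun _ => ⟨ha, hc⟩⟩
        rw [e, Finset.card_erase_of_mem (Finset.mem_sdiff.2 hx), hd]
        rfl
      · exact (hQ _ _ c3.ge (c4.le.trans hk) (Finset.erase_subset _ _) a3 d4).2
          ((hQ J _ hJ.ge (c4.le.trans hk) (Finset.subset_insert _ _) hAJ d4).1 hq)
  exact key _ J rfl hJ hAJ (h4.mono_left hJI) ((hQ J I hJ.ge h2 hJI hAJ h4).2 h)

variable {F : Type} [Group F] {ρ : Out (FreeGroup α) →* Out F}
  {P : Finset α → (FreeGroup α → F) → Prop}

/-- Two functions that are ports on all admissible sets containing `A` and agree on one of them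
agree on all of them. -/
theorem PortSys.spread (h : PortSys ρ P) (A : Finset α) {f g : FreeGroup α → F}
    (hf : ∀ I, Ok I → A ⊆ I → P I f) (hg : ∀ I, Ok I → A ⊆ I → P I g) {I I' : Finset α}
    (hI : Ok I) (hA : A ⊆ I) (hI' : Ok I') (hA' : A ⊆ I') (e : f =ᶠ[deep I] g) :
    f =ᶠ[deep I'] g := by
  refine swap 5 (by norm_num) A ∅ (fun I => f =ᶠ[deep I] g) ?_ hI.1 hI.2 hA
    (Finset.disjoint_empty_right _) hI'.1 hI'.2 hA' (Finset.disjoint_empty_right _) e
  intro J K h1 h2 h3 h4 _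
  have c := Finset.card_le_card h3
  have oJ : Ok J := ⟨h1, c.trans h2⟩
  have oK : Ok K := ⟨h1.trans c, h2⟩
  exact ⟨h.inj J K f g oJ oK h3 (hf K oK (h4.trans h3)) (hg K oK (h4.trans h3)),
    fun e => e.filter_mono (deep_mono h3)⟩

/-- A function that is a port on all admissible sets containing `A` comes from a section. -/
theorem Atlas.glue (h : PortSys ρ P) (T : Atlas P) (A : Finset α) {g : FreeGroup α → F}
    (hg : ∀ I, Ok I → A ⊆ I → P I g) {I₀ : Finset α} (h₀ : Ok I₀) (hA : A ⊆ I₀) :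
    ∃ π, ∀ I, Ok I → A ⊆ I → T.rep π =ᶠ[deep I] g := by
  obtain ⟨π, hπ⟩ := T.sur I₀ g h₀ (hg I₀ h₀ hA)
  exact ⟨π, fun I hI hAI => h.spread A (fun K hK _ => T.mem π K hK) hg h₀ hA hI hAI hπ⟩

theorem PortSys.map_one (h : PortSys ρ P) {I : Finset α} {f : FreeGroup α → F} (hI : Ok I)
    (hf : P I f) : f 1 = 1 := by
  obtain ⟨Λ, _, hΛ⟩ := h.hom I f hI hf
  have e := hΛ 1 (one_mem _) 1 (one_mem _) (one_mem _) (one_mem _)
  rw [mul_one] at e
  exact left_eq_mul.1 e

theorem exists_lift (ρ : Out (FreeGroup α) →* Out F) (γ : MulAut (FreeGroup α)) :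
    ∃ a, Lifts ρ γ a := mkOut_surjective F _

theorem Lifts.mul {γ δ : MulAut (FreeGroup α)} {a b : MulAut F} (ha : Lifts ρ γ a)
    (hb : Lifts ρ δ b) : Lifts ρ (γ * δ) (a * b) := by
  unfold Lifts at *
  rw [map_mul, map_mul, map_mul, ha, hb]

theorem Lifts.inv {γ : MulAut (FreeGroup α)} {a : MulAut F} (ha : Lifts ρ γ a) :
    Lifts ρ γ⁻¹ a⁻¹ := by
  unfold Lifts at *
  rw [map_inv, map_inv, map_inv, ha]

theorem Lifts.conj_mul {γ : MulAut (FreeGroup α)} {a : MulAut F} (ha : Lifts ρ γ a) (u : F) :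
    Lifts ρ γ (MulAut.conj u * a) := by
  unfold Lifts at *
  rw [map_mul, mkOut_conj, one_mul, ha]

theorem lifts_conj (t : FreeGroup α) (u : F) : Lifts ρ (MulAut.conj t) (MulAut.conj u) := by
  unfold Lifts
  rw [mkOut_conj, mkOut_conj, map_one]

theorem lifts_one (u : F) : Lifts ρ 1 (MulAut.conj u) := by
  unfold Lifts
  rw [mkOut_conj, map_one, map_one]

/-- For deep parameters the section has its defining property. -/
theorem PortSys.ev_isSig (h : PortSys ρ P) {I L : Finset α} {f : FreeGroup α → F} (hc : Ch I L)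
    (hf : P I f) : ∀ᶠ β in deepK I L, IsSig ρ I f β (sig ρ I f β) :=
  (h.sig_ex I L f hc hf).mono fun _ => isSig_sig

theorem IsSig.congr {I : Finset α} {f g : FreeGroup α → F} {β : Par α} {a : MulAut F}
    (ha : IsSig ρ I f β a) (e : f =ᶠ[deep I] g) : IsSig ρ I g β a :=
  ⟨ha.1, (ha.2.and e).mono fun _ hw => hw.2 ▸ hw.1⟩

theorem sig_congr {I : Finset α} {f g : FreeGroup α → F} (e : f =ᶠ[deep I] g) :
    sig ρ I f = sig ρ I g := by
  funext β
  exact congrArg Classical.epsilon (funext fun _ => propext ⟨fun h => h.congr e, fun h => h.congr e.symm⟩)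

theorem tv_congr {I : Finset α} (L : Finset α) {f g : FreeGroup α → F} (e : f =ᶠ[deep I] g)
    (h : α × Bool) : tv ρ I f h =ᶠ[deepK I L] tv ρ I g h := by
  filter_upwards [(tendsto_coord I L h).eventually e] with β hβ
  unfold tv
  rw [hβ, sig_congr e]

end Pool.Agent.MP_3ce0a0_al.Q2T14
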