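import Pool.Agent.MP_3ce0a0_al.Q2T14.Defs
import Pool.Agent.MP_3ce0a0_al.Q2T15.Basic

/-! Block T14: global sections, nodes, walls; the statements of the rows. -/

set_option autoImplicit false

namespace Pool.Agent.MP_3ce0a0_al.Q2T14

open Pool.Agent.MP_3ce0a0_al.H79 Pool.Agent.MP_3ce0a0_al.Q2T15 Filter

noncomputable section

/-! ### The combinatorial layer -/

section Comb

/-- Nodes: the vertices and the midpoints of the subdivided Schreier graph. -/
abbrev Node (Φ α : Type) : Type := Φ × Option α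

/-- Walls: the edges of the subdivided Schreier graph. -/
abbrev Wall (Φ α : Type) : Type := Φ × (α × Bool)

variable {F Φ α : Type} [Group F]

/-- The vertex at the end of a wall. -/
def near (ω : Wall Φ α) : Node Φ α := (ω.1, none)

/-- The midpoint at the end of a wall. -/
def far (r : FreeGroup α →* Equiv.Perm Φ) : Wall Φ α → Node Φ α
  | (π, (y, false)) => (π, some y)
  | (π, (y, true)) => (r (FreeGroup.of y) π, some y)

/-- Joined through the relation `R` and the walls of `A`. -/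
def Jn (r : FreeGroup α →* Equiv.Perm Φ) (R : Node Φ α → Node Φ α → Prop) (A : Set (Wall Φ α)) :
    Node Φ α → Node Φ α → Prop :=
  Relation.EqvGen fun a b => R a b ∨ ∃ ω ∈ A, a = near ω ∧ b = far r ω

/-- The conclusion of the argument with the product of the twists. -/
def Tr (l : F →* Equiv.Perm Φ) (r : FreeGroup α →* Equiv.Perm Φ) (π π' : Φ) : Prop :=
  ∃ u c t, c ≠ 1 ∧ l u π = r c π ∧ l u π' = r t π'

/-- The trees `SS(I, L)` as quotients of the subdivided Schreier graph. -/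
structure Charts (l : F →* Equiv.Perm Φ) (r : FreeGroup α →* Equiv.Perm Φ)
    (R : Finset α → Finset α → Node Φ α → Node Φ α → Prop) : Prop where
  mono : ∀ J K I L a b, Ch J K → Ch I L → J ⊆ I → K ⊆ L → R I L a b → R J K a b
  loop : ∀ I L (ω : Wall Φ α), Ch I L → ω.2.1 ∉ L → R I L (near ω) (far r ω)
  conn : ∀ I L a b, Ch I L → Jn r (R I L) Set.univ a b
  acyc : ∀ I (ω : Wall Φ α), Ch I {ω.2.1} → ¬ Jn r (R I {ω.2.1}) {ω}ᶜ (near ω) (far r ω)
  inv : ∀ I L u a b, Ch I L → R I L a b → R I L (l u a.1, a.2) (l u b.1, b.2)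
  equiv : ∀ I L, Equivalence (R I L)

/-- The sides of the walls. -/
structure Side (l : F →* Equiv.Perm Φ) (r : FreeGroup α →* Equiv.Perm Φ)
    (s : Wall Φ α → Node Φ α → Prop) : Prop where
  s_near : ∀ ω, s ω (near ω)
  s_far : ∀ ω, ¬ s ω (far r ω)
  other : ∀ ω ω', ω ≠ ω' → (s ω (near ω') ↔ s ω (far r ω'))
  fin : ∀ a b, {ω | ¬ (s ω a ↔ s ω b)}.Finite
  nest : ∀ ω ω' a, ω ≠ ω' → ¬ (s ω' a ↔ s ω' (near ω)) → (s ω a ↔ s ω (near ω'))
  inv : ∀ u a b, (∀ ω, s ω a ↔ s ω b) → ∀ ω, s ω (l u a.1, a.2) ↔ s ω (l u b.1, b.2)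
  tr : ∀ a b, (∀ ω, s ω a ↔ s ω b) → Tr l r a.1 b.1

end Comb

/-! ### Global sections -/

section Glob

variable {α F : Type} [Group F]

/-- The compatible families of ports, each glued to one function. -/
structure Atlas (P : Finset α → (FreeGroup α → F) → Prop) where
  /-- the families -/
  Φ : Type
  /-- a representative -/
  rep : Φ → FreeGroup α → F
  mem : ∀ π I, Ok I → P I (rep π)
  inj : ∀ π π' I, Ok I → rep π =ᶠ[deep I] rep π' → π = π'
  sur : ∀ I f, Ok I → P I f → ∃ π, rep π =ᶠ[deep I] f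

/-- With the two actions. -/
structure Acts (P : Finset α → (FreeGroup α → F) → Prop) extends Atlas P where
  /-- the action of `F` -/
  l : F →* Equiv.Perm Φ
  /-- the action of the free group on the letters -/
  r : FreeGroup α →* Equiv.Perm Φ
  l_rep : ∀ u π I, Ok I → rep (l u π) =ᶠ[deep I] fun w => u * rep π w * u⁻¹
  r_rep : ∀ t π I, Ok I → t ∈ std (I : Set α) →
    rep (r t π) =ᶠ[deep I] fun w => rep π (t⁻¹ * w * t)
  comm : ∀ u t π, l u (r t π) = r t (l u π)

variable (ρ : Out (FreeGroup α) →* Out F) {P : Finset α → (FreeGroup α → F) → Prop}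

/-- The section attached to a node. -/
def Acts.sec (A : Acts P) (I : Finset α) : Node A.Φ α → Par α → MulAut F
  | (π, none) => sig ρ I (A.rep π)
  | (π, some z) => tv ρ I (A.rep π) (z, false)

/-- Nodes with the same germ of sections. -/
def Acts.R (A : Acts P) (I L : Finset α) (a b : Node A.Φ α) : Prop :=
  A.sec ρ I a =ᶠ[deepK I L] A.sec ρ I b

/-- The two ports at a midpoint have the same end. -/
def Acts.KI (A : Acts P) : Prop := ∀ I L π z, Ch I L →
  tv ρ I (A.rep π) (z, true) =ᶠ[deepK I L] tv ρ I (A.rep (A.r (FreeGroup.of z) π)) (z, false)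

end Glob

end

/-- Row ATLAS. -/
def StmtAtlas : Prop := ∀ (α F : Type) [Finite α] [Group F] (ρ : Out (FreeGroup α) →* Out F)
  (P : Finset α → (FreeGroup α → F) → Prop), PortSys ρ P → Nonempty (Atlas P)

/-- Row INN: ports are stable under conjugation in the source. -/
def StmtInn : Prop := ∀ (α F : Type) [Finite α] [Group F] (ρ : Out (FreeGroup α) →* Out F)
  (P : Finset α → (FreeGroup α → F) → Prop), 8 ≤ Nat.card α → PortSys ρ P →
    ∀ I f t, Ok I → P I f → t ∈ std (I : Set α) → P I fun w => f (t⁻¹ * w * t)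

/-- Row ACTS. -/
def StmtActs : Prop := ∀ (α F : Type) [Finite α] [Group F] (ρ : Out (FreeGroup α) →* Out F)
  (P : Finset α → (FreeGroup α → F) → Prop), 8 ≤ Nat.card α → PortSys ρ P → Atlas P →
    Nonempty (Acts P)

/-- Row KI. -/
def StmtKI : Prop := ∀ (α F : Type) [Finite α] [Group F] (ρ : Out (FreeGroup α) →* Out F)
  (P : Finset α → (FreeGroup α → F) → Prop) (A : Acts P), 8 ≤ Nat.card α → PortSys ρ P → A.KI ρ

/-- Row CHARTS. -/
def StmtCharts : Prop := ∀ (α F : Type) [Group F] (ρ : Out (FreeGroup α) →* Out F)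
  (P : Finset α → (FreeGroup α → F) → Prop) (A : Acts P), PortSys ρ P → A.KI ρ →
    Charts A.l A.r (A.R ρ)

/-- Row TR. -/
def StmtTr : Prop := ∀ (α F : Type) [Finite α] [Group F] (ρ : Out (FreeGroup α) →* Out F)
  (P : Finset α → (FreeGroup α → F) → Prop) (A : Acts P), 8 ≤ Nat.card α → PortSys ρ P →
    ∀ a b, (∀ I z, Ch I {z} → A.R ρ I {z} a b) → Tr A.l A.r a.1 b.1

/-- Row SIDE. -/
def StmtSide : Prop := ∀ (F Φ α : Type) [Finite α] [Group F] (l : F →* Equiv.Perm Φ)
  (r : FreeGroup α →* Equiv.Perm Φ) (R : Finset α → Finset α → Node Φ α → Node Φ α → Prop),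
    8 ≤ Nat.card α → (∀ u t π, l u (r t π) = r t (l u π)) → Charts l r R →
      (∀ a b, (∀ I z, Ch I {z} → R I {z} a b) → Tr l r a.1 b.1) → ∃ s, Side l r s

/-- Row ORBIT: Claims 1 to 3. -/
def StmtOrbit : Prop := ∀ (F Φ α : Type) [Group F] (l : F →* Equiv.Perm Φ)
  (r : FreeGroup α →* Equiv.Perm Φ) (s : Wall Φ α → Node Φ α → Prop), Side l r s →
    (∀ t π, r t π = π → t = 1) ∧ ∀ π π', ∃ t, r t π = π'

/-- Row INDEX. -/
def StmtIndex : Prop := ∀ (α β Φ : Type) [Finite α] [Finite β] [Nonempty Φ]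
  (l : FreeGroup β →* Equiv.Perm Φ) (r : FreeGroup α →* Equiv.Perm Φ),
    (∀ u t π, l u (r t π) = r t (l u π)) → (∀ u π, l u π = π → u = 1) →
    (∃ T : Set Φ, T.Finite ∧ ∀ π, ∃ π₀ ∈ T, ∃ u, π = l u π₀) →
    (∀ t π, r t π = π → t = 1) → (∀ π π', ∃ t, r t π = π') → Nat.card α - 1 ∣ Nat.card β - 1

/-- The block, for arbitrary finite sets of letters. -/
def StmtT14g : Prop := ∀ (α β : Type) [Finite α] [Finite β]
  (ρ : Out (FreeGroup α) →* Out (FreeGroup β))
  (P : Finset α → (FreeGroup α → FreeGroup β) → Prop), 8 ≤ Nat.card α → PortSys ρ P →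
    Nat.card α - 1 ∣ Nat.card β - 1

end Pool.Agent.MP_3ce0a0_al.Q2T14
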